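import Mathlib
import Pool.Agent.Y918.QC.Box

set_option autoImplicit false

/-!
# Counting the points of a box which belong to a set without nondegenerate grids
-/

namespace Pool.Agent.Y918.GB

open Finset
open Pool.Agent.Y918.QC (boxk)

/-- The point of a box with the given windows. -/
def asm {G M : ℕ} {R I : Type} (E : (Fin G × Fin M) ⊕ R ≃ I) (x : Fin G → Fin M → ℚ) (y : R → ℚ) :
    I → ℚ := fun i => Sum.elim (fun p : Fin G × Fin M => x p.1 p.2) y (E.symm i)

theorem asm_inl {G M : ℕ} {R I : Type} (E : (Fin G × Fin M) ⊕ R ≃ I) (x : Fin G → Fin M → ℚ)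
    (y : R → ℚ) (g : Fin G) (j : Fin M) : asm E x y (E (Sum.inl (g, j))) = x g j := by
  simp [asm]

theorem asm_inr {G M : ℕ} {R I : Type} (E : (Fin G × Fin M) ⊕ R ≃ I) (x : Fin G → Fin M → ℚ)
    (y : R → ℚ) (l : R) : asm E x y (E (Sum.inr l)) = y l := by
  simp [asm]

open Classical in
/-- A set without nondegenerate grids is small. -/
theorem count {G M K : ℕ} {R I : Type} [Fintype R] [Fintype I] [DecidableEq I]
    (E : (Fin G × Fin M) ⊕ R ≃ I) (A : Finset ℚ) (θ : ℝ) (hθ0 : 0 < θ) (hθ1 : θ ≤ 1)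
    (badt : Fin G → (Fin (K + 1) → Fin M → ℚ) → Prop)
    (hbt : ∀ g, (((Fintype.piFinset fun _ : Fin (K + 1) => Fintype.piFinset fun _ : Fin M => A).filter
      (badt g)).card : ℝ) ≤ θ * ((A.card : ℝ) ^ M) ^ (K + 1))
    (bad : (I → ℚ) → Prop)
    (hcube : ∀ (y : R → ℚ) (x : Fin G → Fin (K + 1) → Fin M → ℚ), (∀ g, ¬ badt g (x g)) →
      ∃ η : Fin G → Fin (K + 1), ¬ bad (asm E (fun g => x g (η g)) y)) :
    (((Fintype.piFinset fun _ : I => A).filter bad).card : ℝ) ≤
      G * θ ^ ((1 / (K + 1 : ℝ)) ^ G) * (A.card : ℝ) ^ (Fintype.card I) := by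
  obtain ⟨a, ha⟩ : ∃ a : ℝ, a = (A.card : ℝ) := ⟨_, rfl⟩
  rw [← ha]
  have ha0 : 0 ≤ a := by
    rw [ha]
    exact Nat.cast_nonneg _
  set XA : Finset (Fin M → ℚ) := Fintype.piFinset fun _ => A with hXA
  have hXAc : (XA.card : ℝ) = a ^ M := by
    rw [hXA, Fintype.card_piFinset_const, ha]
    push_cast
    rfl
  set Bd := (Fintype.piFinset fun _ : I => A).filter bad with hBd
  let YR : Finset (R → ℚ) := Fintype.piFinset fun _ => A
  let By : (R → ℚ) → Finset (Fin G → Fin M → ℚ) := fun y =>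
    (Fintype.piFinset fun _ : Fin G => XA).filter (fun x => bad (asm E x y))
  have hfib : Bd.card = ∑ y ∈ YR, (Bd.filter (fun P => (fun l => P (E (Sum.inr l))) = y)).card := by
    apply Finset.card_eq_sum_card_fiberwise
    intro P hP
    have h1 := Fintype.mem_piFinset.1 (Finset.mem_filter.1 hP).1
    exact Fintype.mem_piFinset.2 (fun l => h1 _)
  have hle1 : ∀ y ∈ YR, (Bd.filter (fun P => (fun l => P (E (Sum.inr l))) = y)).card ≤ (By y).card := by
    intro y _
    apply Finset.card_le_card_of_injOn (fun P g j => P (E (Sum.inl (g, j))))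
    · intro P hP
      rw [Finset.mem_coe, Finset.mem_filter, hBd, Finset.mem_filter] at hP
      obtain ⟨⟨h1, h2⟩, h3⟩ := hP
      rw [Fintype.mem_piFinset] at h1
      rw [Finset.mem_coe, Finset.mem_filter, Fintype.mem_piFinset]
      refine ⟨fun g => Fintype.mem_piFinset.2 (fun j => h1 _), ?_⟩
      have h4 : asm E (fun g j => P (E (Sum.inl (g, j)))) y = P := by
        funext i
        obtain ⟨s, rfl⟩ := E.surjective i
        rcases s with ⟨g, j⟩ | l
        · exact asm_inl E (fun g j => P (E (Sum.inl (g, j)))) y g j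
        · exact (asm_inr E (fun g j => P (E (Sum.inl (g, j)))) y l).trans (congrFun h3 l).symm
      rw [h4]
      exact h2
    · intro P hP P' hP' hPP
      rw [Finset.mem_coe, Finset.mem_filter] at hP hP'
      funext i
      obtain ⟨s, rfl⟩ := E.surjective i
      rcases s with ⟨g, j⟩ | l
      · exact congrFun (congrFun hPP g) j
      · exact congrFun (hP.2.trans hP'.2.symm) l
  have hle2 : ∀ y ∈ YR, ((By y).card : ℝ) ≤ G * θ ^ ((1 / (K + 1 : ℝ)) ^ G) * (a ^ M) ^ G := by
    intro y _
    have h0 := boxk K θ hθ0 hθ1 G (fun _ => XA) badt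
      (by
        intro g
        rw [hXAc, ha]
        exact hbt g) (By y) (Finset.filter_subset _ _) (by
        intro x hx hnd hall
        obtain ⟨η, hη⟩ := hcube y x hnd
        exact hη (Finset.mem_filter.1 (hall η)).2)
    have h1 : (∏ _g : Fin G, (XA.card : ℝ)) = (a ^ M) ^ G := by
      rw [hXAc, Finset.prod_const, Finset.card_univ, Fintype.card_fin]
    rw [h1] at h0
    exact h0
  have hYR : (YR.card : ℝ) = a ^ (Fintype.card R) := by
    have h1 : YR.card = A.card ^ Fintype.card R := by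
      simp only [YR, Fintype.card_piFinset, Finset.prod_const, Finset.card_univ]
    rw [h1, ha]
    push_cast
    rfl
  have hcI : Fintype.card I = G * M + Fintype.card R := by
    rw [← Fintype.card_congr E, Fintype.card_sum, Fintype.card_prod, Fintype.card_fin,
      Fintype.card_fin]
  have htot : (Bd.card : ℝ) ≤ a ^ (Fintype.card R) *
      (G * θ ^ ((1 / (K + 1 : ℝ)) ^ G) * (a ^ M) ^ G) := by
    rw [hfib, ← hYR]
    push_cast
    rw [← nsmul_eq_mul, ← Finset.sum_const]
    refine Finset.sum_le_sum fun y hy => ?_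
    exact (Nat.cast_le.2 (hle1 y hy)).trans (hle2 y hy)
  refine htot.trans (le_of_eq ?_)
  rw [hcI, pow_add, mul_comm G M, pow_mul]
  ring

end Pool.Agent.Y918.GB
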