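import Mathlib
import Pool.Agent.Y918.RT.Vsp
import Pool.Agent.Y918.RP.Add
import Pool.Agent.Y918.GB.Count
import Pool.Agent.Y918.GB.Cube

set_option autoImplicit false

/-!
# The exceptional parameters of one block of numbers
-/

namespace Pool.Agent.Y918.GB

open Module Finset
open Pool.Agent.H301R2.SSE (QB mem_QB)
open Pool.Agent.W245 (IndepOver)
open Pool.Agent.Y918.SC (monE Ex)
open Pool.Agent.Y918.RT (VA mem_VA card_coset)
open Pool.Agent.Y918.RP (LV mem_LV deg_countF)

/-- The parameters inside and outside of the windows. -/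
noncomputable def winE {G M : ℕ} {I : Type} (σ : Fin G × Fin M → I) (hσ : Function.Injective σ) :
    (Fin G × Fin M) ⊕ {i : I // ¬ i ∈ Set.range σ} ≃ I := by
  classical
  exact ((Equiv.ofInjective σ hσ).sumCongr (Equiv.refl _)).trans
    (Equiv.sumCompl (fun i => i ∈ Set.range σ))

theorem winE_inl {G M : ℕ} {I : Type} (σ : Fin G × Fin M → I) (hσ : Function.Injective σ)
    (q : Fin G × Fin M) : winE σ hσ (Sum.inl q) = σ q := by
  simp [winE]

theorem sum_asm {G M : ℕ} {R I : Type} [Fintype R] [Fintype I] (E : (Fin G × Fin M) ⊕ R ≃ I)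
    (x : Fin G → Fin M → ℚ) (y : R → ℚ) (Z : I → ℂ) :
    ∑ i, (asm E x y i : ℂ) * Z i = (∑ g, ∑ j, (x g j : ℂ) * Z (E (Sum.inl (g, j)))) +
      ∑ l, (y l : ℂ) * Z (E (Sum.inr l)) := by
  rw [← E.sum_comp, Fintype.sum_sum_type, Fintype.sum_prod_type]
  congr 1
  · refine Finset.sum_congr rfl fun g _ => Finset.sum_congr rfl fun j _ => ?_
    rw [asm_inl]
  · refine Finset.sum_congr rfl fun l _ => ?_
    rw [asm_inr]

theorem sum_asm_eta {G M K : ℕ} {R I : Type} [Fintype R] [Fintype I]
    (E : (Fin G × Fin M) ⊕ R ≃ I) (x : Fin G → Fin (K + 1) → Fin M → ℚ) (y : R → ℚ) (Z : I → ℂ)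
    (η : Fin G → Option (Fin K)) :
    ∑ i, (asm E (fun g => x g ((η g).elim 0 Fin.succ)) y i : ℂ) * Z i =
      ∑ i, (asm E (fun g => x g 0) y i : ℂ) * Z i +
      ∑ g, (η g).elim 0 (fun i => ∑ j, (((x g i.succ - x g 0) j : ℚ) : ℂ) *
        Z (E (Sum.inl (g, j)))) := by
  rw [sum_asm, sum_asm, add_right_comm, ← Finset.sum_add_distrib]
  congr 1
  refine Finset.sum_congr rfl fun g _ => ?_
  rcases η g with _ | i
  · simp
  · simp only [Option.elim_some]
    rw [← Finset.sum_add_distrib]
    refine Finset.sum_congr rfl fun j _ => ?_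
    rw [Pi.sub_apply]
    push_cast
    ring

open Classical in
/-- One coordinate. -/
theorem coord_count {X : Type} (A : Finset X) {K : ℕ} (i : Fin K) (r : X → Prop) (ρ : ℝ)
    (h : ((A.filter r).card : ℝ) ≤ ρ * A.card) :
    (((Fintype.piFinset fun _ : Fin K => A).filter (fun t => r (t i))).card : ℝ) ≤
      ρ * (A.card : ℝ) ^ K := by
  have h1 : (Fintype.piFinset fun _ : Fin K => A).filter (fun t => r (t i)) =
      Fintype.piFinset (Function.update (fun _ : Fin K => A) i (A.filter r)) := by
    ext t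
    rw [Finset.mem_filter, Fintype.mem_piFinset, Fintype.mem_piFinset]
    constructor
    · rintro ⟨h2, h3⟩ j
      by_cases hj : j = i
      · subst hj
        rw [Function.update_self]
        exact Finset.mem_filter.2 ⟨h2 j, h3⟩
      · rw [Function.update_of_ne hj]
        exact h2 j
    · intro h2
      constructor
      · intro j
        by_cases hj : j = i
        · subst hj
          have h3 := h2 j
          rw [Function.update_self] at h3
          exact (Finset.mem_filter.1 h3).1
        · have h3 := h2 j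
          rw [Function.update_of_ne hj] at h3
          exact h3
      · have h3 := h2 i
        rw [Function.update_self] at h3
        exact (Finset.mem_filter.1 h3).2
  rw [h1, Fintype.card_piFinset, ← Finset.mul_prod_erase Finset.univ _ (Finset.mem_univ i),
    Function.update_self]
  have h2 : ∏ j ∈ Finset.univ.erase i,
      (Function.update (fun _ : Fin K => A) i (A.filter r) j).card = A.card ^ (K - 1) := by
    rw [Finset.prod_congr rfl (g := fun _ => A.card)]
    · rw [Finset.prod_const, Finset.card_erase_of_mem (Finset.mem_univ i), Finset.card_univ,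
        Fintype.card_fin]
    · intro j hj
      rw [Function.update_of_ne (Finset.ne_of_mem_erase hj)]
  rw [h2]
  push_cast
  have h3 : (A.card : ℝ) ^ K = A.card * (A.card : ℝ) ^ (K - 1) := by
    rw [← pow_succ']
    congr 1
    have := i.2
    omega
  rw [h3, ← mul_assoc]
  exact mul_le_mul_of_nonneg_right h (by positivity)

open Classical in
/-- A relation between the first and another coordinate. -/
theorem pair_count {X : Type} (A : Finset X) {K : ℕ} (i : Fin K) (r : X → X → Prop) (ρ : ℝ)
    (h : ∀ u ∈ A, ((A.filter (fun v => r u v)).card : ℝ) ≤ ρ * A.card) :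
    (((Fintype.piFinset fun _ : Fin (K + 1) => A).filter (fun x => r (x 0) (x i.succ))).card : ℝ) ≤
      ρ * (A.card : ℝ) ^ (K + 1) := by
  set Φ := (Fintype.piFinset fun _ : Fin (K + 1) => A).filter (fun x => r (x 0) (x i.succ)) with hΦ
  have hfib : Φ.card = ∑ u ∈ A, (Φ.filter (fun x => x 0 = u)).card := by
    apply Finset.card_eq_sum_card_fiberwise
    intro x hx
    rw [Finset.mem_coe, hΦ, Finset.mem_filter, Fintype.mem_piFinset] at hx
    exact hx.1 0
  rw [hfib]
  push_cast
  have hall : ∀ u ∈ A, ((Φ.filter (fun x => x 0 = u)).card : ℝ) ≤ ρ * (A.card : ℝ) ^ K := by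
    intro u hu
    refine le_trans (Nat.cast_le.2 ?_) (coord_count A i (r u) ρ (h u hu))
    refine Finset.card_le_card_of_injOn (fun x => Fin.tail x) ?_ ?_
    · intro x hx
      rw [Finset.mem_coe, Finset.mem_filter, hΦ, Finset.mem_filter, Fintype.mem_piFinset] at hx
      rw [Finset.mem_coe, Finset.mem_filter, Fintype.mem_piFinset]
      refine ⟨fun i => hx.1.1 i.succ, ?_⟩
      have h2 := hx.1.2
      rw [hx.2] at h2
      exact h2
    · intro x hx x' hx' hxx
      rw [Finset.mem_coe, Finset.mem_filter] at hx hx'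
      have h2 : Fin.tail x = Fin.tail x' := hxx
      rw [← Fin.cons_self_tail x, ← Fin.cons_self_tail x', hx.2, hx'.2, h2]
  refine (Finset.sum_le_sum hall).trans ?_
  rw [Finset.sum_const, nsmul_eq_mul]
  apply le_of_eq
  ring

open Classical in
/-- **The exceptional parameters of one block are rare.** -/
theorem block (A1 M1 : Type) [Fintype A1] [Fintype M1] [DecidableEq A1] [DecidableEq M1]
    [Subsingleton A1] (N D : ℕ) :
    ∃ (G K C : ℕ) (δ : ℝ), 0 < G ∧ 0 < δ ∧ δ ≤ 1 ∧ ∀ (M c : ℕ), c + K ≤ M →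
    ∀ (I : Type) [Fintype I] [DecidableEq I] (σ : Fin G × Fin M → I), Function.Injective σ →
    ∀ A : Finset ℚ, A.Nonempty → ∀ W : Submodule QB ℂ, Module.Finite QB W → finrank QB W ≤ N →
    ∀ (ζ : A1 → ℂ) (X : I → A1 → ℂ) (ξ : M1 → ℂ) (Y : I → M1 → ℂ),
    (∀ g a (V : Submodule QB ℂ), Module.Finite QB V → finrank QB V < K →
      finrank ℚ (LV (fun j : Fin M => X (σ (g, j)) a) V) + c ≤ M) →
    (∀ g (m : M1 → ℤ), m ≠ 0 → (∀ l, |m l| ≤ D) →
      finrank ℚ (VA (fun j : Fin M => ∑ l, (m l : ℂ) * Y (σ (g, j)) l)) + c ≤ M) →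
    (((Fintype.piFinset fun _ : I => A).filter (fun P => ¬ IndepOver W (monE (D := D)
      (fun a => ζ a + ∑ i, (P i : ℂ) * X i a)
      (fun l => Complex.exp (ξ l + ∑ i, (P i : ℂ) * Y i l))))).card : ℝ) ≤
      C * (A.card : ℝ) ^ ((Fintype.card I : ℝ) - δ * c) := by
  obtain ⟨G, K, hG0, hK0, hcube⟩ := mcubeE A1 M1 N D
  obtain ⟨Ms, hMs⟩ : ∃ Ms : Finset (M1 → ℤ), ∀ m : M1 → ℤ, m ∈ Ms ↔ ∀ l, |m l| ≤ D :=
    ⟨Fintype.piFinset fun _ => Finset.Icc (-(D : ℤ)) D, fun m => by
      rw [Fintype.mem_piFinset]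
      simp only [Finset.mem_Icc, abs_le]⟩
  obtain ⟨C₁, hC₁⟩ : ∃ C₁ : ℕ, C₁ = Fintype.card A1 * K + K * Ms.card + 1 := ⟨_, rfl⟩
  obtain ⟨e, he⟩ : ∃ e : ℝ, e = (1 / (K + 1 : ℝ)) ^ G := ⟨_, rfl⟩
  have hK1 : (0 : ℝ) < K + 1 := by positivity
  have he0 : 0 < e := by rw [he]; positivity
  have he1 : e ≤ 1 := by
    rw [he]
    apply pow_le_one₀ (by positivity)
    rw [div_le_one hK1]
    have : (0 : ℝ) ≤ K := Nat.cast_nonneg _
    linarith
  refine ⟨G, K, G * C₁, e, hG0, he0, he1, fun M c hcM I _ _ σ hσ A hA W hW hWN ζ X ξ Y hadd hmul => ?_⟩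
  obtain ⟨a, ha⟩ : ∃ a : ℝ, a = (A.card : ℝ) := ⟨_, rfl⟩
  rw [← ha]
  have ha1 : 1 ≤ a := by
    rw [ha]
    exact_mod_cast hA.card_pos
  have ha0 : 0 < a := by linarith
  have hG1 : (1 : ℝ) ≤ G := by exact_mod_cast hG0
  have hC1 : (1 : ℝ) ≤ C₁ := by
    have : 1 ≤ C₁ := by omega
    exact_mod_cast this
  obtain ⟨ρ, hρ⟩ : ∃ ρ : ℝ, ρ = (a ^ c)⁻¹ := ⟨_, rfl⟩
  have hρ0 : 0 < ρ := by rw [hρ]; positivity
  obtain ⟨θ, hθ⟩ : ∃ θ : ℝ, θ = C₁ * ρ := ⟨_, rfl⟩
  have hθ0 : 0 < θ := by rw [hθ]; positivity
  have hρe : ρ ^ e = a ^ (-(e * c)) := by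
    rw [hρ, ← Real.rpow_natCast, ← Real.rpow_neg ha0.le, ← Real.rpow_mul ha0.le]
    congr 1
    ring
  have hCe : (C₁ : ℝ) ^ e ≤ C₁ := by
    calc (C₁ : ℝ) ^ e ≤ (C₁ : ℝ) ^ (1 : ℝ) := Real.rpow_le_rpow_of_exponent_le hC1 he1
      _ = C₁ := Real.rpow_one _
  have hθe : θ ^ e ≤ C₁ * a ^ (-(e * c)) := by
    rw [hθ, Real.mul_rpow (by linarith) hρ0.le, hρe]
    exact mul_le_mul_of_nonneg_right hCe (Real.rpow_nonneg ha0.le _)
  have hsplit : a ^ ((Fintype.card I : ℝ) - e * c) = a ^ Fintype.card I * a ^ (-(e * c)) := by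
    rw [← Real.rpow_natCast, ← Real.rpow_add ha0]
    congr 1
  have hfin : (G : ℝ) * θ ^ e * a ^ Fintype.card I ≤
      ((G * C₁ : ℕ) : ℝ) * a ^ ((Fintype.card I : ℝ) - e * c) := by
    rw [hsplit]
    push_cast
    calc (G : ℝ) * θ ^ e * a ^ Fintype.card I
        ≤ (G : ℝ) * (C₁ * a ^ (-(e * c))) * a ^ Fintype.card I := by gcongr
      _ = _ := by ring
  set XA : Finset (Fin M → ℚ) := Fintype.piFinset fun _ => A with hXA
  have hXAc : (XA.card : ℝ) = a ^ M := by
    rw [hXA, Fintype.card_piFinset_const, ha]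
    push_cast
    rfl
  rcases le_or_gt θ 1 with hθ1 | hθ1
  swap
  · -- trivial case
    refine le_trans (Nat.cast_le.2 (Finset.card_le_card (Finset.filter_subset _ _))) ?_
    have h1 : ((Fintype.piFinset fun _ : I => A).card : ℝ) = a ^ Fintype.card I := by
      rw [Fintype.card_piFinset, Finset.prod_const, Finset.card_univ, ha]
      push_cast
      rfl
    rw [h1]
    refine le_trans ?_ hfin
    have h2 : 1 ≤ θ ^ e := Real.one_le_rpow hθ1.le he0.le
    have h3 : 0 ≤ a ^ Fintype.card I := by positivity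
    calc a ^ Fintype.card I = 1 * 1 * a ^ Fintype.card I := by ring
      _ ≤ (G : ℝ) * θ ^ e * a ^ Fintype.card I := by gcongr
  · let val : Fin G → A1 → (Fin M → ℚ) → ℂ := fun g b u => ∑ j, (u j : ℂ) * X (σ (g, j)) b
    let badt : Fin G → (Fin (K + 1) → Fin M → ℚ) → Prop := fun g x =>
      (∃ b : A1, ¬ LinearIndependent QB (fun i : Fin K => val g b (x i.succ) - val g b (x 0))) ∨
      ∃ i : Fin K, ∃ m ∈ Ms, m ≠ 0 ∧
        x i.succ - x 0 ∈ VA (fun j : Fin M => ∑ l, (m l : ℂ) * Y (σ (g, j)) l)
    have hbt : ∀ g, (((Fintype.piFinset fun _ : Fin (K + 1) =>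
        Fintype.piFinset fun _ : Fin M => A).filter (badt g)).card : ℝ) ≤
        θ * ((A.card : ℝ) ^ M) ^ (K + 1) := by
      intro g
      rw [← ha, ← hXAc, ← hXA]
      obtain ⟨q, hq⟩ : ∃ q : ℝ, q = (XA.card : ℝ) ^ (K + 1) := ⟨_, rfl⟩
      have hq0 : 0 ≤ q := by rw [hq]; positivity
      rw [← hq]
      have h1 : ∀ b : A1, (((Fintype.piFinset fun _ : Fin (K + 1) => XA).filter
          (fun x => ¬ LinearIndependent QB
            (fun i : Fin K => val g b (x i.succ) - val g b (x 0)))).card : ℝ) ≤ K * ρ * q := by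
        intro b
        rw [hq]
        refine deg_countF XA (val g b) K ρ hρ0.le ?_
        intro V hV hVK y
        have h2 : (XA.filter (fun u => val g b u - y ∈ V)).card ≤
            A.card ^ finrank ℚ (LV (fun j : Fin M => X (σ (g, j)) b) V) := by
          rcases (XA.filter (fun u => val g b u - y ∈ V)).eq_empty_or_nonempty with h0 | ⟨u₀, hu₀⟩
          · rw [h0]
            simp
          refine le_trans (Finset.card_le_card ?_)
            (card_coset (LV (fun j : Fin M => X (σ (g, j)) b) V) A u₀)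
          intro u hu
          rw [Finset.mem_filter] at hu hu₀ ⊢
          refine ⟨hu.1, ?_⟩
          rw [mem_LV]
          have h3 := V.sub_mem hu.2 hu₀.2
          have h4 : (val g b u - y) - (val g b u₀ - y) =
              ∑ j, (((u - u₀) j : ℚ) : ℂ) * X (σ (g, j)) b := by
            simp only [val]
            rw [sub_sub_sub_cancel_right, ← Finset.sum_sub_distrib]
            refine Finset.sum_congr rfl fun j _ => ?_
            rw [Pi.sub_apply]
            push_cast
            ring
          rw [h4] at h3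
          exact h3
        have h5 : ((XA.filter (fun u => val g b u - y ∈ V)).card : ℝ) ≤
            a ^ finrank ℚ (LV (fun j : Fin M => X (σ (g, j)) b) V) := by
          rw [ha]
          exact_mod_cast h2
        refine h5.trans ?_
        rw [hXAc, hρ, inv_mul_eq_div, le_div_iff₀ (by positivity), ← pow_add]
        exact pow_le_pow_right₀ ha1 (hadd g b V hV hVK)
      have h2 : ∀ (i : Fin K) (m : M1 → ℤ), m ∈ Ms → m ≠ 0 →
          (((Fintype.piFinset fun _ : Fin (K + 1) => XA).filter (fun x => x i.succ - x 0 ∈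
            VA (fun j : Fin M => ∑ l, (m l : ℂ) * Y (σ (g, j)) l))).card : ℝ) ≤ ρ * q := by
        intro i m hm hm0
        rw [hq]
        refine pair_count XA i (fun u v => v - u ∈
          VA (fun j : Fin M => ∑ l, (m l : ℂ) * Y (σ (g, j)) l)) ρ ?_
        intro u _
        have h3 := card_coset (VA (fun j : Fin M => ∑ l, (m l : ℂ) * Y (σ (g, j)) l)) A u
        have h4 : ((XA.filter (fun v => v - u ∈
            VA (fun j : Fin M => ∑ l, (m l : ℂ) * Y (σ (g, j)) l))).card : ℝ) ≤
            a ^ finrank ℚ (VA (fun j : Fin M => ∑ l, (m l : ℂ) * Y (σ (g, j)) l)) := by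
          rw [ha]
          exact_mod_cast h3
        refine h4.trans ?_
        rw [hXAc, hρ, inv_mul_eq_div, le_div_iff₀ (by positivity), ← pow_add]
        exact pow_le_pow_right₀ ha1 (hmul g m hm0 ((hMs m).1 hm))
      have h3 : ((Fintype.piFinset fun _ : Fin (K + 1) => XA).filter (badt g)) ⊆
          ((Finset.univ : Finset A1).biUnion fun b => (Fintype.piFinset fun _ : Fin (K + 1) => XA).filter
            (fun x => ¬ LinearIndependent QB
              (fun i : Fin K => val g b (x i.succ) - val g b (x 0)))) ∪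
          (((Finset.univ : Finset (Fin K)) ×ˢ (Ms.filter (fun m => m ≠ 0))).biUnion fun p =>
            (Fintype.piFinset fun _ : Fin (K + 1) => XA).filter (fun x => x p.1.succ - x 0 ∈
              VA (fun j : Fin M => ∑ l, (p.2 l : ℂ) * Y (σ (g, j)) l))) := by
        intro x hx
        rw [Finset.mem_filter] at hx
        rw [Finset.mem_union, Finset.mem_biUnion, Finset.mem_biUnion]
        rcases hx.2 with ⟨b, hb⟩ | ⟨i, m, hm, hm0, hV⟩
        · exact Or.inl ⟨b, Finset.mem_univ _, Finset.mem_filter.2 ⟨hx.1, hb⟩⟩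
        · exact Or.inr ⟨(i, m), Finset.mem_product.2 ⟨Finset.mem_univ _,
            Finset.mem_filter.2 ⟨hm, hm0⟩⟩, Finset.mem_filter.2 ⟨hx.1, hV⟩⟩
      have h4 : (((Fintype.piFinset fun _ : Fin (K + 1) => XA).filter (badt g)).card : ℝ) ≤
          ∑ b : A1, K * ρ * q + ∑ p ∈ (Finset.univ : Finset (Fin K)) ×ˢ (Ms.filter (fun m => m ≠ 0)),
            ρ * q := by
        refine le_trans (Nat.cast_le.2 ((Finset.card_le_card h3).trans
          ((Finset.card_union_le _ _).trans (add_le_add Finset.card_biUnion_le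
            Finset.card_biUnion_le)))) ?_
        push_cast
        refine add_le_add (Finset.sum_le_sum fun b _ => h1 b) (Finset.sum_le_sum fun p hp => ?_)
        rw [Finset.mem_product, Finset.mem_filter] at hp
        exact h2 p.1 p.2 hp.2.1 hp.2.2
      refine h4.trans ?_
      rw [Finset.sum_const, Finset.sum_const, Finset.card_univ, Finset.card_product,
        Finset.card_univ, Fintype.card_fin, nsmul_eq_mul, nsmul_eq_mul]
      have h5 : ((Ms.filter (fun m => m ≠ 0)).card : ℝ) ≤ Ms.card := by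
        exact_mod_cast Finset.card_le_card (Finset.filter_subset _ _)
      have h6 : 0 ≤ ρ * q := mul_nonneg hρ0.le hq0
      have h7 : (0 : ℝ) ≤ K := Nat.cast_nonneg _
      rw [hθ, hC₁]
      push_cast
      have h8 : (K : ℝ) * ((Ms.filter (fun m => m ≠ 0)).card : ℝ) * (ρ * q) ≤
          K * Ms.card * (ρ * q) := by gcongr
      nlinarith
    have h0 := count (winE σ hσ) A θ hθ0 hθ1 badt (fun g => by convert hbt g) (fun P => ¬ IndepOver W (monE (D := D)
      (fun a => ζ a + ∑ i, (P i : ℂ) * X i a)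
      (fun l => Complex.exp (ξ l + ∑ i, (P i : ℂ) * Y i l)))) (by
        intro y x hnd
        obtain ⟨η, hη⟩ := hcube W hW hWN
          (fun b => ζ b + ∑ i, (asm (winE σ hσ) (fun g => x g 0) y i : ℂ) * X i b)
          (fun l => ξ l + ∑ i, (asm (winE σ hσ) (fun g => x g 0) y i : ℂ) * Y i l)
          (fun g i b => val g b (x g i.succ) - val g b (x g 0))
          (fun g i l => ∑ j, (((x g i.succ - x g 0) j : ℚ) : ℂ) * Y (σ (g, j)) l)
          (by
            intro g γ hγ
            obtain ⟨b, hb⟩ := Function.ne_iff.1 hγ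
            have h1 : LinearIndependent QB
                (fun i : Fin K => val g b (x g i.succ) - val g b (x g 0)) := by
              by_contra hcon
              exact hnd g (Or.inl ⟨b, hcon⟩)
            have h2 := h1.map' (LinearMap.mulLeft QB (γ b))
              (LinearMap.ker_eq_bot.2 (mul_right_injective₀ hb))
            have h3 : (fun i : Fin K => ∑ a, γ a * (val g a (x g i.succ) - val g a (x g 0))) =
                (LinearMap.mulLeft QB (γ b)) ∘
                  (fun i : Fin K => val g b (x g i.succ) - val g b (x g 0)) := by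
              funext i
              rw [Fintype.sum_subsingleton _ b]
              rfl
            rw [h3]
            exact h2)
          (by
            intro g i m hm0 hm halg
            refine hnd g (Or.inr ⟨i, m, (hMs m).2 hm, hm0, ?_⟩)
            rw [mem_VA]
            convert halg using 2
            simp only [Finset.mul_sum]
            rw [Finset.sum_comm]
            refine Finset.sum_congr rfl fun l _ => Finset.sum_congr rfl fun j _ => ?_
            ring)
        refine ⟨fun g => (η g).elim 0 Fin.succ, fun hbad => hbad ?_⟩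
        have e1 : ∀ b, ζ b + ∑ i, (asm (winE σ hσ) (fun g => x g ((η g).elim 0 Fin.succ)) y i : ℂ) *
            X i b = (ζ b + ∑ i, (asm (winE σ hσ) (fun g => x g 0) y i : ℂ) * X i b) +
              ∑ g, (η g).elim 0 (fun i => val g b (x g i.succ) - val g b (x g 0)) := by
          intro b
          rw [sum_asm_eta, ← add_assoc]
          congr 1
          refine Finset.sum_congr rfl fun g _ => ?_
          rcases η g with _ | i
          · rfl
          · simp only [Option.elim_some, val]
            rw [← Finset.sum_sub_distrib]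
            refine Finset.sum_congr rfl fun j _ => ?_
            rw [winE_inl, Pi.sub_apply]
            push_cast
            ring
        have e2 : ∀ l, ξ l + ∑ i, (asm (winE σ hσ) (fun g => x g ((η g).elim 0 Fin.succ)) y i : ℂ) *
            Y i l = (ξ l + ∑ i, (asm (winE σ hσ) (fun g => x g 0) y i : ℂ) * Y i l) +
              ∑ g, (η g).elim 0 (fun i => ∑ j, (((x g i.succ - x g 0) j : ℚ) : ℂ) *
                Y (σ (g, j)) l) := by
          intro l
          rw [sum_asm_eta, ← add_assoc]
          simp only [winE_inl]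
        have e3 : (fun b => ζ b + ∑ i, (asm (winE σ hσ)
            (fun g => x g ((η g).elim 0 Fin.succ)) y i : ℂ) * X i b) = _ := funext e1
        have e4 : (fun l => Complex.exp (ξ l + ∑ i, (asm (winE σ hσ)
            (fun g => x g ((η g).elim 0 Fin.succ)) y i : ℂ) * Y i l)) = _ :=
          funext fun l => congrArg Complex.exp (e2 l)
        rw [e3, e4]
        exact hη)
    rw [← he, ← ha] at h0
    refine le_trans (le_of_eq ?_) (h0.trans hfin)
    refine congrArg (fun n : ℕ => (n : ℝ)) ?_
    refine congrArg Finset.card ?_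
    ext P
    simp only [Finset.mem_filter]

end Pool.Agent.Y918.GB
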