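import Mathlib
import Pool.Agent.W245.MixedTuples
import Pool.Agent.Y918.RT.Main
import Pool.Agent.Y918.GB.Block

set_option autoImplicit false

/-!
# Several blocks of numbers
-/

namespace Pool.Agent.Y918.GB

open Module Finset
open Pool.Agent.H301R2.SSE (QB mem_QB)
open Pool.Agent.W245 (IndepOver IndepT famExt famExt_finite)

open Classical in
/-- The exceptional parameters of several blocks. -/
theorem union {X E : Type} [Fintype E] [Nonempty E] (Xs : Finset X) (β : ℝ) (hβ : 0 ≤ β) (N₀ : ℕ) :
    ∀ (n N : ℕ), N * Fintype.card E ^ n ≤ N₀ → ∀ W : Submodule QB ℂ, Module.Finite QB W →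
    finrank QB W ≤ N → ∀ g : Fin n → X → E → ℂ,
    (∀ (j : Fin n) (W' : Submodule QB ℂ), Module.Finite QB W' → finrank QB W' ≤ N₀ →
      ((Xs.filter (fun x => ¬ IndepOver W' (g j x))).card : ℝ) ≤ β * Xs.card) →
    (((Fintype.piFinset fun _ : Fin n => Xs).filter
      (fun P => ¬ IndepT W (fun j => g j (P j)))).card : ℝ) ≤ n * β * (Xs.card : ℝ) ^ n := by
  intro n
  induction n with
  | zero =>
    intro N _ W _ _ g _
    rw [Finset.filter_false_of_mem]
    · simp
    · rintro P _ hT
      exact hT (IndepT.zero _ _)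
  | succ n ih =>
    intro N hN W hW hWN g hg
    obtain ⟨a, ha⟩ : ∃ a : ℝ, a = (Xs.card : ℝ) := ⟨_, rfl⟩
    have ha0 : 0 ≤ a := by
      rw [ha]
      exact Nat.cast_nonneg _
    have hE : 1 ≤ Fintype.card E := Fintype.card_pos
    rw [← ha]
    set Yn : Finset (Fin n → X) := Fintype.piFinset fun _ => Xs with hYn
    have hYc : (Yn.card : ℝ) = a ^ n := by
      rw [hYn, Fintype.card_piFinset_const, ha]
      push_cast
      rfl
    set H : Finset X := Xs.filter (fun x => ¬ IndepOver W (g 0 x)) with hH
    have hWN₀ : finrank QB W ≤ N₀ := by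
      refine hWN.trans (le_trans ?_ hN)
      exact Nat.le_mul_of_pos_right _ (pow_pos hE _)
    have hHc : (H.card : ℝ) ≤ β * a := by
      rw [ha]
      exact hg 0 W hW hWN₀
    set B := ((Fintype.piFinset fun _ : Fin (n + 1) => Xs).filter
      (fun P => ¬ IndepT W (fun j => g j (P j)))) with hB
    have hfib : B.card = ∑ p ∈ Xs, (B.filter (fun P => P 0 = p)).card := by
      apply Finset.card_eq_sum_card_fiberwise
      intro P hP
      exact Fintype.mem_piFinset.1 (Finset.mem_filter.1 hP).1 0
    have hinj : ∀ p, Set.InjOn (fun P : Fin (n + 1) → X => Fin.tail P)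
        (B.filter (fun P => P 0 = p)) := by
      intro p P hP P' hP' hPP
      rw [Finset.mem_coe, Finset.mem_filter] at hP hP'
      rw [← Fin.cons_self_tail P, ← Fin.cons_self_tail P', hP.2, hP'.2]
      exact congrArg _ hPP
    have hall : ∀ p ∈ Xs, ((B.filter (fun P => P 0 = p)).card : ℝ) ≤ a ^ n := by
      intro p _
      rw [← hYc]
      apply Nat.cast_le.2
      refine Finset.card_le_card_of_injOn (fun P => Fin.tail P) ?_ (hinj p)
      intro P hP
      rw [Finset.mem_coe, Finset.mem_filter, hB, Finset.mem_filter] at hP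
      have h3 := Fintype.mem_piFinset.1 hP.1.1
      exact Fintype.mem_piFinset.2 (fun j => h3 j.succ)
    have hgood : ∀ p ∈ Xs, p ∉ H → ((B.filter (fun P => P 0 = p)).card : ℝ) ≤
        n * β * a ^ n := by
      intro p hp hpH
      have hp2 : IndepOver W (g 0 p) := by
        by_contra h
        exact hpH (Finset.mem_filter.2 ⟨hp, h⟩)
      obtain ⟨hfin, hrk⟩ := famExt_finite W N hWN (g 0 p)
      have h3 := ih (N * Fintype.card E) (by rw [mul_assoc, ← pow_succ']; exact hN) _ hfin hrk
        (fun j => g j.succ) (fun j W' hW' hWN' => hg j.succ W' hW' hWN')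
      rw [← ha] at h3
      refine le_trans (Nat.cast_le.2 ?_) h3
      refine Finset.card_le_card_of_injOn (fun P => Fin.tail P) ?_ (hinj p)
      intro P hP
      rw [Finset.mem_coe, Finset.mem_filter, hB, Finset.mem_filter] at hP
      obtain ⟨⟨hPA, hTi⟩, hP0⟩ := hP
      have h6 := Fintype.mem_piFinset.1 hPA
      rw [Finset.mem_coe, Finset.mem_filter]
      refine ⟨Fintype.mem_piFinset.2 (fun j => h6 j.succ), ?_⟩
      intro h7
      apply hTi
      have h8 := IndepT.cons hp2 h7
      have h9 : (fun j => g j (P j)) = (Fin.cons (g 0 p) (fun j : Fin n => g j.succ (Fin.tail P j)) :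
          Fin (n + 1) → E → ℂ) := by
        funext j
        refine Fin.cases ?_ (fun j => ?_) j
        · rw [Fin.cons_zero, ← hP0]
        · rw [Fin.cons_succ]
          rfl
      rw [h9]
      exact h8
    rw [hfib]
    push_cast
    rw [← Finset.sum_filter_add_sum_filter_not Xs (fun p => p ∈ H)]
    have h1 : ∑ p ∈ Xs.filter (fun p => p ∈ H), ((B.filter (fun P => P 0 = p)).card : ℝ) ≤
        β * a * a ^ n := by
      refine (Finset.sum_le_sum (fun p hp => hall p (Finset.mem_filter.1 hp).1)).trans ?_
      rw [Finset.sum_const, nsmul_eq_mul]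
      have h3 : ((Xs.filter (fun p => p ∈ H)).card : ℝ) ≤ (H.card : ℝ) := by
        have h4 : (Xs.filter (fun p => p ∈ H)).card ≤ H.card := by
          refine Finset.card_le_card ?_
          intro p hp
          exact (Finset.mem_filter.1 hp).2
        exact_mod_cast h4
      exact mul_le_mul_of_nonneg_right (h3.trans hHc) (pow_nonneg ha0 _)
    have h2 : ∑ p ∈ Xs.filter (fun p => ¬ p ∈ H), ((B.filter (fun P => P 0 = p)).card : ℝ) ≤
        a * (n * β * a ^ n) := by
      refine (Finset.sum_le_sum (fun p hp => hgood p (Finset.mem_filter.1 hp).1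
        (Finset.mem_filter.1 hp).2)).trans ?_
      rw [Finset.sum_const, nsmul_eq_mul]
      have h3 : ((Xs.filter (fun p => ¬ p ∈ H)).card : ℝ) ≤ a := by
        rw [ha]
        exact_mod_cast Finset.card_le_card (Finset.filter_subset _ _)
      exact mul_le_mul_of_nonneg_right h3 (by positivity)
    calc _ ≤ β * a * a ^ n + a * (n * β * a ^ n) := add_le_add h1 h2
      _ = (n + 1) * β * a ^ (n + 1) := by ring

end Pool.Agent.Y918.GB
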