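import Mathlib
import Pool.Agent.Y918.RP.Final
import Pool.Agent.Y918.GB.Union

set_option autoImplicit false

/-!
# Polynomial relations between several blocks of numbers, windows
-/

namespace Pool.Agent.Y918.GB

open Module Finset
open Pool.Agent.H301R2.SSE (QB mem_QB)
open Pool.Agent.W245 (IndepOver IndepT famExt famExt_finite)
open Pool.Agent.Y918.RT (VA mem_VA card_coset pw)
open Pool.Agent.Y918.RP (LV mem_LV)

/-- The numbers `x_i` satisfy a nonzero polynomial relation with coefficients in `W`, of degree at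
most `D` in each of them. -/
def RelI (W : Submodule QB ℂ) (D : ℕ) {ι : Type} (x : ι → ℂ) : Prop :=
  ∃ p : MvPolynomial ι ℂ, p ≠ 0 ∧ (∀ M, p.coeff M ∈ W) ∧ (∀ i, p.degreeOf i ≤ D) ∧
    MvPolynomial.eval x p = 0

/-- Exponent vectors. -/
noncomputable def expoN {n D : ℕ} {S : Type} [Fintype S] (s : Fin n → S → Fin (D + 1)) :
    (Fin n × S) →₀ ℕ :=
  Finsupp.equivFunOnFinite.symm (fun p => (s p.1 p.2 : ℕ))

theorem expoN_injective {n D : ℕ} {S : Type} [Fintype S] :
    Function.Injective (expoN (n := n) (D := D) (S := S)) := by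
  intro s s' h
  funext j i
  exact Fin.ext (DFunLike.congr_fun h (j, i))

theorem not_relI {n D : ℕ} {S : Type} [Fintype S] [DecidableEq S] {W : Submodule QB ℂ}
    {y : Fin n → S → ℂ}
    (h : IndepT W (fun j (e : S → Fin (D + 1)) => ∏ s, y j s ^ (e s : ℕ))) :
    ¬ RelI W D (fun p : Fin n × S => y p.1 p.2) := by
  rintro ⟨p, hp, hW, hdeg, h0⟩
  apply hp
  have hsupp : p.support ⊆ (univ : Finset (Fin n → S → Fin (D + 1))).image expoN := by
    intro M hM
    rw [Finset.mem_image]
    refine ⟨fun j s => ⟨M (j, s),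
      Nat.lt_succ_of_le ((MvPolynomial.degreeOf_le_iff.1 (hdeg (j, s))) M hM)⟩,
      Finset.mem_univ _, ?_⟩
    ext v
    rfl
  have h1 : ∑ s : Fin n → S → Fin (D + 1), p.coeff (expoN s) *
      ∏ j, ∏ i, y j i ^ (s j i : ℕ) = 0 := by
    rw [← h0, MvPolynomial.eval_eq']
    rw [Finset.sum_subset hsupp (by
      intro M _ hM
      rw [MvPolynomial.notMem_support_iff.1 hM, zero_mul])]
    rw [Finset.sum_image (fun a _ b _ h => expoN_injective h)]
    refine Finset.sum_congr rfl fun s _ => ?_
    rw [Fintype.prod_prod_type]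
    rfl
  have h2 := h (fun s => p.coeff (expoN s)) (fun s => hW _) h1
  ext M
  rw [MvPolynomial.coeff_zero]
  by_cases hM : M ∈ p.support
  · obtain ⟨s, _, rfl⟩ := Finset.mem_image.1 (hsupp hM)
    exact h2 s
  · exact MvPolynomial.notMem_support_iff.1 hM

/-- Windows. -/
def win {G' M k : ℕ} (h : G' * M ≤ k) {G : ℕ} (τ : Fin G → Fin G') (p : Fin G × Fin M) : Fin k :=
  ⟨M * (τ p.1 : ℕ) + (p.2 : ℕ), by
    have h1 : (τ p.1 : ℕ) + 1 ≤ G' := (τ p.1).2
    have h2 := Nat.mul_le_mul_left M h1
    have h3 := p.2.2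
    rw [Nat.mul_add, mul_one, mul_comm M G'] at h2
    omega⟩

theorem win_injective {G' M k : ℕ} (h : G' * M ≤ k) {G : ℕ} {τ : Fin G → Fin G'}
    (hτ : Function.Injective τ) : Function.Injective (win h τ) := by
  rintro ⟨g, j⟩ ⟨g', j'⟩ hh
  have h1 : M * (τ g : ℕ) + (j : ℕ) = M * (τ g' : ℕ) + (j' : ℕ) := congrArg Fin.val hh
  have h2 := j.2
  have h3 := j'.2
  have h4 : (τ g : ℕ) = (τ g' : ℕ) := by
    by_contra hne
    rcases Nat.lt_or_gt_of_ne hne with h5 | h5
    · have h6 := Nat.mul_le_mul_left M (show (τ g : ℕ) + 1 ≤ τ g' from h5)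
      rw [Nat.mul_add, mul_one] at h6
      omega
    · have h6 := Nat.mul_le_mul_left M (show (τ g' : ℕ) + 1 ≤ τ g from h5)
      rw [Nat.mul_add, mul_one] at h6
      omega
  have h5 : τ g = τ g' := Fin.ext h4
  have h6 : (j : ℕ) = j' := by
    rw [h4] at h1
    omega
  rw [hτ h5, Fin.ext h6]

/-- The choice of the good windows. -/
theorem exists_windows {G n : ℕ} {β : Type} [Fintype β] [Nonempty β] (hn : Fintype.card β * G ≤ n)
    (f : Fin n → β) : ∃ b : β, ∃ τ : Fin G → Fin n, Function.Injective τ ∧ ∀ g, f (τ g) = b := by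
  classical
  rcases Nat.eq_zero_or_pos G with rfl | hG
  · exact ⟨Classical.arbitrary β, fun g => g.elim0, fun g => g.elim0, fun g => g.elim0⟩
  by_contra hcon
  push Not at hcon
  have h1 : ∀ b : β, (Finset.univ.filter (fun i : Fin n => f i = b)).card < G := by
    intro b
    by_contra hle
    push Not at hle
    obtain ⟨s, hs, hsc⟩ := Finset.exists_subset_card_eq hle
    let e : Fin G ≃ s := (Fintype.equivFinOfCardEq (by rw [Fintype.card_coe, hsc])).symm
    obtain ⟨g, hg⟩ := hcon b (fun g => (e g : Fin n)) (fun g g' h => e.injective (Subtype.ext h))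
    exact hg (Finset.mem_filter.1 (hs (e g).2)).2
  have h2 : n = ∑ b : β, (Finset.univ.filter (fun i : Fin n => f i = b)).card := by
    rw [← Finset.card_eq_sum_card_fiberwise (fun i _ => Finset.mem_univ (f i)), Finset.card_univ,
      Fintype.card_fin]
  have h3 : ∑ b : β, (Finset.univ.filter (fun i : Fin n => f i = b)).card < ∑ _b : β, G :=
    Finset.sum_lt_sum_of_nonempty Finset.univ_nonempty (fun b _ => h1 b)
  rw [Finset.sum_const, Finset.card_univ, smul_eq_mul] at h3
  omega

/-- The dimension of the vectors with values in a small space. -/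
theorem LV_le {M : ℕ} (x : Fin M → ℂ) (V : Submodule QB ℂ) [Module.Finite QB V] :
    finrank ℚ (LV x V) + finrank QB (Submodule.span QB (Set.range x)) ≤ M + finrank QB V := by
  classical
  have hfin : Module.Finite QB (Submodule.span QB (Set.range x)) :=
    FiniteDimensional.span_of_finite QB (Set.finite_range _)
  set r := finrank QB (Submodule.span QB (Set.range x)) with hr
  set d := finrank ℚ (LV x V) with hd
  -- the rational map to the quotient
  let φ : (Fin M → ℚ) →ₗ[ℚ] (ℂ ⧸ V) :=
    (V.mkQ.restrictScalars ℚ).comp (Fintype.linearCombination ℚ x)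
  have hker : LinearMap.ker φ = LV x V := by
    ext q
    rw [LinearMap.mem_ker, LinearMap.comp_apply, LinearMap.restrictScalars_apply,
      Submodule.mkQ_apply, Submodule.Quotient.mk_eq_zero, mem_LV, Fintype.linearCombination_apply]
    simp only [Rat.smul_def]
  have h1 := LinearMap.finrank_range_add_finrank_ker φ
  rw [hker, Module.finrank_fintype_fun_eq_card, Fintype.card_fin] at h1
  have hrfin : Module.Finite ℚ (LinearMap.range φ) := inferInstance
  -- the span of the image over the large field
  let b := Module.finBasis ℚ (LinearMap.range φ)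
  set ρ := finrank ℚ (LinearMap.range φ) with hρ
  have h2 : finrank QB (Submodule.span QB (Set.range fun i => ((b i : LinearMap.range φ) : ℂ ⧸ V)))
      ≤ ρ := by
    refine (finrank_range_le_card _).trans ?_
    rw [Fintype.card_fin]
  have h3 : ∀ i, V.mkQ (x i) ∈
      Submodule.span QB (Set.range fun i => ((b i : LinearMap.range φ) : ℂ ⧸ V)) := by
    intro i
    have h4 : φ (Pi.single i 1) = V.mkQ (x i) := by
      rw [LinearMap.comp_apply, Fintype.linearCombination_apply_single, one_smul]
      rfl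
    have h5 := b.sum_repr ⟨V.mkQ (x i), ⟨Pi.single i 1, h4⟩⟩
    have h6 : ∑ l, (b.repr ⟨V.mkQ (x i), ⟨Pi.single i 1, h4⟩⟩ l) •
        ((b l : LinearMap.range φ) : ℂ ⧸ V) = V.mkQ (x i) := by
      have h7 := congrArg (Submodule.subtype _) h5
      rw [map_sum] at h7
      simpa using h7
    rw [← h6]
    refine Submodule.sum_mem _ fun l _ => ?_
    have h8 : (b.repr ⟨V.mkQ (x i), ⟨Pi.single i 1, h4⟩⟩ l) • ((b l : LinearMap.range φ) : ℂ ⧸ V) =
        (algebraMap ℚ QB (b.repr ⟨V.mkQ (x i), ⟨Pi.single i 1, h4⟩⟩ l)) •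
          ((b l : LinearMap.range φ) : ℂ ⧸ V) := (algebraMap_smul QB _ _).symm
    rw [h8]
    exact Submodule.smul_mem _ _ (Submodule.subset_span (Set.mem_range_self l))
  have hfin2 : Module.Finite QB
      (Submodule.span QB (Set.range fun i => ((b i : LinearMap.range φ) : ℂ ⧸ V))) :=
    FiniteDimensional.span_of_finite QB (Set.finite_range _)
  have h4 : (Submodule.span QB (Set.range x)).map V.mkQ ≤
      Submodule.span QB (Set.range fun i => ((b i : LinearMap.range φ) : ℂ ⧸ V)) := by
    rw [Submodule.map_span, Submodule.span_le]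
    rintro _ ⟨_, ⟨i, rfl⟩, rfl⟩
    exact h3 i
  have h5 : finrank QB ((Submodule.span QB (Set.range x)).map V.mkQ) ≤ ρ :=
    (Submodule.finrank_mono h4).trans h2
  have h6 : r ≤ finrank QB ((Submodule.span QB (Set.range x)).map V.mkQ) + finrank QB V := by
    let ψ := V.mkQ.domRestrict (Submodule.span QB (Set.range x))
    have h7 := LinearMap.finrank_range_add_finrank_ker ψ
    have h8 : LinearMap.range ψ = (Submodule.span QB (Set.range x)).map V.mkQ := by
      rw [LinearMap.range_domRestrict]
    rw [h8] at h7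
    have h9 : finrank QB (LinearMap.ker ψ) ≤ finrank QB V := by
      let θ : LinearMap.ker ψ →ₗ[QB] V :=
        { toFun := fun z => ⟨((z : Submodule.span QB (Set.range x)) : ℂ), by
            have h10 := z.2
            rw [LinearMap.mem_ker] at h10
            exact (Submodule.Quotient.mk_eq_zero V).1 h10⟩
          map_add' := fun _ _ => rfl
          map_smul' := fun _ _ => rfl }
      refine LinearMap.finrank_le_finrank_of_injective (f := θ) ?_
      intro z z' h
      have h11 := congrArg Subtype.val h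
      exact Subtype.ext (Subtype.ext h11)
    omega
  omega

end Pool.Agent.Y918.GB
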