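import Mathlib
import Pool.Agent.Y918.RP.Gel
import Pool.Agent.Y918.GB.Rel

set_option autoImplicit false

/-!
# Random combinations of arbitrary linearly independent numbers
-/

namespace Pool.Agent.Y918.GB

open Module Finset
open Pool.Agent.H301R2.SSE (QB mem_QB)
open Pool.Agent.W245 (IndepOver IndepT famExt famExt_finite)
open Pool.Agent.Y918.SC (monE Ex)
open Pool.Agent.Y918.RT (VA mem_VA card_coset pw)
open Pool.Agent.Y918.RP (LV mem_LV li_QB_of_logs RelW not_relW)

/-- The logarithms of algebraic numbers among the combinations of the numbers. -/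
theorem VA_le {M : ℕ} {x : Fin M → ℂ} (hx : LinearIndependent ℚ x) :
    finrank ℚ (VA x) ≤ finrank QB (Submodule.span QB (Set.range x)) := by
  classical
  have hfin : Module.Finite QB (Submodule.span QB (Set.range x)) :=
    FiniteDimensional.span_of_finite QB (Set.finite_range _)
  set d := finrank ℚ (VA x) with hd
  let b := Module.finBasis ℚ (VA x)
  have hb : LinearIndependent ℚ (fun l => ((b l : VA x) : Fin M → ℚ)) :=
    b.linearIndependent.map' (VA x).subtype (Submodule.ker_subtype _)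
  have hinj : Function.Injective (Fintype.linearCombination ℚ x) := by
    rw [injective_iff_map_eq_zero]
    intro q hq
    rw [Fintype.linearCombination_apply] at hq
    funext i
    exact Fintype.linearIndependent_iff.1 hx q hq i
  have hy : LinearIndependent ℚ
      (fun l => Fintype.linearCombination ℚ x ((b l : VA x) : Fin M → ℚ)) :=
    hb.map' _ (LinearMap.ker_eq_bot.2 hinj)
  have hy2 := li_QB_of_logs (fun l => by
    have h1 := (mem_VA x _).1 (b l).2
    rw [Fintype.linearCombination_apply]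
    simp only [Rat.smul_def]
    exact h1) hy
  have hmem : ∀ l, Fintype.linearCombination ℚ x ((b l : VA x) : Fin M → ℚ) ∈
      Submodule.span QB (Set.range x) := by
    intro l
    rw [Fintype.linearCombination_apply]
    refine Submodule.sum_mem _ fun i _ => ?_
    rw [← algebraMap_smul QB]
    exact Submodule.smul_mem _ _ (Submodule.subset_span (Set.mem_range_self i))
  let v : Fin d → Submodule.span QB (Set.range x) := fun l => ⟨_, hmem l⟩
  have hv : LinearIndependent QB v := by
    refine LinearIndependent.of_comp (Submodule.subtype _) ?_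
    exact hy2
  have h2 := hv.fintype_card_le_finrank
  rwa [Fintype.card_fin] at h2

theorem indep_add {W : Submodule QB ℂ} {D : ℕ} {u : ℂ} {v : Fin 0 → ℂ}
    (h : IndepOver W (monE (D := D) (fun _ : Fin 1 => u) v)) : IndepOver W (pw D u) := by
  let F : Fin (D + 1) ≃ Ex (Fin 1) (Fin 0) D :=
    { toFun := fun e _ => e
      invFun := fun e => e (Sum.inl 0)
      left_inv := fun e => rfl
      right_inv := fun e => by
        funext x
        rcases x with x | x
        · rw [Subsingleton.elim x 0]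
        · exact x.elim0 }
  refine Pool.Agent.Y918.RT.IndepOver.congr F ?_ h
  intro e
  unfold monE
  simp only [Finset.univ_eq_empty, Finset.prod_empty, mul_one, Finset.univ_unique,
    Fin.default_eq_zero, Finset.prod_singleton]
  rfl

theorem indep_mul {W : Submodule QB ℂ} {D : ℕ} {u : Fin 0 → ℂ} {v : ℂ}
    (h : IndepOver W (monE (D := D) u (fun _ : Fin 1 => v))) : IndepOver W (pw D v) := by
  let F : Fin (D + 1) ≃ Ex (Fin 0) (Fin 1) D :=
    { toFun := fun e _ => e
      invFun := fun e => e (Sum.inr 0)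
      left_inv := fun e => rfl
      right_inv := fun e => by
        funext x
        rcases x with x | x
        · exact x.elim0
        · rw [Subsingleton.elim x 0] }
  refine Pool.Agent.Y918.RT.IndepOver.congr F ?_ h
  intro e
  unfold monE
  simp only [Finset.univ_eq_empty, Finset.prod_empty, one_mul, Finset.univ_unique,
    Fin.default_eq_zero, Finset.prod_singleton]
  rfl

theorem final_bound {G' C c k : ℕ} {δ₀ : ℝ} (hδ₀ : 0 < δ₀) (hG' : 0 < G') (h8 : k ≤ 8 * G' * c)
    {a : ℝ} (ha : 1 ≤ a) :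
    C * a ^ ((k : ℝ) - δ₀ * c) ≤ C * a ^ ((k : ℝ) - δ₀ / (8 * G') * k) := by
  apply mul_le_mul_of_nonneg_left _ (Nat.cast_nonneg _)
  apply Real.rpow_le_rpow_of_exponent_le ha
  have h1 : (k : ℝ) ≤ 8 * G' * c := by exact_mod_cast h8
  have h2 : (0 : ℝ) < G' := by exact_mod_cast hG'
  have h3 : δ₀ / (8 * G') * k ≤ δ₀ * c := by
    rw [div_mul_eq_mul_div, div_le_iff₀ (by positivity)]
    nlinarith
  linarith

open Classical in
/-- **One random combination.** -/
theorem sch1 (N D : ℕ) : ∃ (k₀ C : ℕ) (δ : ℝ), 0 < δ ∧ ∀ k ≥ k₀, ∀ x : Fin k → ℂ,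
    LinearIndependent ℚ x → ∃ c : Bool, ∀ A : Finset ℚ, A.Nonempty →
    ∀ W : Submodule QB ℂ, Module.Finite QB W → finrank QB W ≤ N → ∀ ζ : ℂ,
    (((Fintype.piFinset fun _ : Fin k => A).filter (fun p => ¬ IndepOver W
      (pw D (bif c then ζ + ∑ i, (p i : ℂ) * x i else
        Complex.exp (ζ + ∑ i, (p i : ℂ) * x i))))).card : ℝ) ≤
      C * (A.card : ℝ) ^ ((k : ℝ) - δ * k) := by
  obtain ⟨Ga, Ka, Ca, δa, hGa, hδa, hδa1, hba⟩ := block (Fin 1) (Fin 0) N D
  obtain ⟨Gm, Km, Cm, δm, hGm, hδm, hδm1, hbm⟩ := block (Fin 0) (Fin 1) N D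
  obtain ⟨G, hG⟩ : ∃ G, G = Ga + Gm := ⟨_, rfl⟩
  obtain ⟨K, hK⟩ : ∃ K, K = Ka + Km := ⟨_, rfl⟩
  obtain ⟨G', hG'⟩ : ∃ G', G' = 2 * G := ⟨_, rfl⟩
  have hG'0 : 0 < G' := by omega
  refine ⟨G' * (8 * (K + 2)), Ca + Cm, min δa δm / (8 * G'), by positivity, fun k hk x hx => ?_⟩
  obtain ⟨M, hM⟩ : ∃ M, M = k / G' := ⟨_, rfl⟩
  have hGM : G' * M ≤ k := by rw [hM]; exact Nat.mul_div_le k G'
  have hM8 : 8 * (K + 2) ≤ M := by
    rw [hM, Nat.le_div_iff_mul_le hG'0, mul_comm]
    exact hk
  have hkM : k < G' * (M + 1) := by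
    rw [hM]
    exact Nat.lt_mul_div_succ k hG'0
  obtain ⟨c, hc⟩ : ∃ c, c = M / 2 - K := ⟨_, rfl⟩
  have hc1 : c + K ≤ M := by omega
  have h8 : k ≤ 8 * G' * c := by
    have h1 : M + 1 ≤ 8 * c := by omega
    calc k ≤ G' * (M + 1) := hkM.le
      _ ≤ G' * (8 * c) := Nat.mul_le_mul_left _ h1
      _ = 8 * G' * c := by ring
  let xw : Fin G' → Fin M → ℂ := fun g j => x (win hGM (id : Fin G' → Fin G') (g, j))
  have hxw : ∀ g, LinearIndependent ℚ (xw g) := fun g =>
    hx.comp _ (fun j j' h => by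
      have := win_injective hGM (τ := (id : Fin G' → Fin G')) Function.injective_id h
      exact (Prod.ext_iff.1 this).2)
  let f : Fin G' → Bool := fun g =>
    decide (M ≤ 2 * finrank QB (Submodule.span QB (Set.range (xw g))))
  obtain ⟨b, τ, hτ, hfb⟩ := exists_windows (G := G) (n := G') (β := Bool)
    (by rw [Fintype.card_bool]; omega) f
  refine ⟨b, fun A hA W hW hWN ζ => ?_⟩
  have ha1 : (1 : ℝ) ≤ (A.card : ℝ) := by exact_mod_cast hA.card_pos
  have hmin : ∀ δ₀ : ℝ, min δa δm ≤ δ₀ → ∀ C₀ : ℕ, C₀ ≤ Ca + Cm → 0 < δ₀ →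
      (C₀ : ℝ) * (A.card : ℝ) ^ ((k : ℝ) - δ₀ * c) ≤
      ((Ca + Cm : ℕ) : ℝ) * (A.card : ℝ) ^ ((k : ℝ) - min δa δm / (8 * G') * k) := by
    intro δ₀ h1 C₀ h2 h3
    refine (final_bound h3 hG'0 h8 ha1).trans ?_
    have h4 : (C₀ : ℝ) ≤ ((Ca + Cm : ℕ) : ℝ) := by exact_mod_cast h2
    have h5 : (A.card : ℝ) ^ ((k : ℝ) - δ₀ / (8 * G') * k) ≤
        (A.card : ℝ) ^ ((k : ℝ) - min δa δm / (8 * G') * k) := by
      apply Real.rpow_le_rpow_of_exponent_le ha1
      have h6 : (0 : ℝ) < G' := by exact_mod_cast hG'0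
      have h7 : min δa δm / (8 * G') ≤ δ₀ / (8 * G') :=
        div_le_div_of_nonneg_right h1 (by positivity)
      have h8 : (0 : ℝ) ≤ k := Nat.cast_nonneg _
      nlinarith
    exact mul_le_mul h4 h5 (Real.rpow_nonneg (by linarith) _) (Nat.cast_nonneg _)
  cases b with
  | true =>
    let τ' : Fin Ga → Fin G' := fun g => τ (Fin.castLE (by omega) g)
    have hτ' : Function.Injective τ' := hτ.comp (Fin.castLE_injective _)
    have h0 := hba M c (by omega) (Fin k) (win hGM τ') (win_injective hGM hτ') A hA W hW hWN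
      (fun _ => ζ) (fun i _ => x i) (fun l => l.elim0) (fun _ l => l.elim0)
      (by
        intro g _ V hV hVK
        have h1 := LV_le (xw (τ' g)) V
        have h2 : M ≤ 2 * finrank QB (Submodule.span QB (Set.range (xw (τ' g)))) :=
          of_decide_eq_true (hfb (Fin.castLE (by omega) g))
        have h3 : (fun j : Fin M => x (win hGM τ' (g, j))) = xw (τ' g) := rfl
        rw [h3]
        omega)
      (by
        intro g m hm0
        exact absurd (Subsingleton.elim _ _) hm0)
    refine le_trans (Nat.cast_le.2 (Finset.card_le_card ?_)) (h0.trans ?_)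
    · intro p hp
      rw [Finset.mem_filter] at hp ⊢
      exact ⟨hp.1, fun h => hp.2 (indep_add h)⟩
    · rw [Fintype.card_fin]
      exact hmin δa (min_le_left _ _) Ca (Nat.le_add_right _ _) hδa
  | false =>
    let τ' : Fin Gm → Fin G' := fun g => τ (Fin.castLE (by omega) g)
    have hτ' : Function.Injective τ' := hτ.comp (Fin.castLE_injective _)
    have h0 := hbm M c (by omega) (Fin k) (win hGM τ') (win_injective hGM hτ') A hA W hW hWN
      (fun l => l.elim0) (fun _ l => l.elim0) (fun _ => ζ) (fun i _ => x i)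
      (by
        intro g a
        exact a.elim0)
      (by
        intro g m hm0 _
        have hm1 : m 0 ≠ 0 := by
          intro h
          apply hm0
          funext l
          rw [Subsingleton.elim l 0, h]
          rfl
        have h2 : ¬ M ≤ 2 * finrank QB (Submodule.span QB (Set.range (xw (τ' g)))) :=
          of_decide_eq_false (hfb (Fin.castLE (by omega) g))
        have h3 : (fun j : Fin M => ∑ l : Fin 1, (m l : ℂ) * x (win hGM τ' (g, j))) =
            fun j => (m 0 : ℂ) * xw (τ' g) j := by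
          funext j
          rw [Fin.sum_univ_one]
          rfl
        rw [h3]
        have h4 : LinearIndependent ℚ (fun j => (m 0 : ℂ) * xw (τ' g) j) :=
          (hxw (τ' g)).map' (LinearMap.mulLeft ℚ (m 0 : ℂ))
            (LinearMap.ker_eq_bot.2 (mul_right_injective₀ (by exact_mod_cast hm1)))
        have h5 := VA_le h4
        have hfin : Module.Finite QB (Submodule.span QB (Set.range (xw (τ' g)))) :=
          FiniteDimensional.span_of_finite QB (Set.finite_range _)
        have h6 : finrank QB (Submodule.span QB (Set.range fun j => (m 0 : ℂ) * xw (τ' g) j)) ≤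
            finrank QB (Submodule.span QB (Set.range (xw (τ' g)))) := by
          apply Submodule.finrank_mono
          rw [Submodule.span_le]
          rintro _ ⟨j, rfl⟩
          have h7 : (m 0 : ℂ) * xw (τ' g) j = ((m 0 : ℤ) : QB) • xw (τ' g) j := by
            rw [Algebra.smul_def]
            congr 1
          change (m 0 : ℂ) * xw (τ' g) j ∈ Submodule.span QB (Set.range (xw (τ' g)))
          rw [h7]
          exact Submodule.smul_mem _ _ (Submodule.subset_span (Set.mem_range_self j))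
        omega)
    refine le_trans (Nat.cast_le.2 (Finset.card_le_card ?_)) (h0.trans ?_)
    · intro p hp
      rw [Finset.mem_filter] at hp ⊢
      exact ⟨hp.1, fun h => hp.2 (indep_mul h)⟩
    · rw [Fintype.card_fin]
      exact hmin δm (min_le_right _ _) Cm (Nat.le_add_left _ _) hδm

open Classical in
/-- From one block to several blocks. -/
theorem several {E : Type} [Fintype E] [Nonempty E] {N₀ n N k C : ℕ} {δ : ℝ}
    (hN : N * Fintype.card E ^ n ≤ N₀) {A : Finset ℚ} (hA : A.Nonempty) (W : Submodule QB ℂ)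
    (hW : Module.Finite QB W) (hWN : finrank QB W ≤ N) (g : Fin n → (Fin k → ℚ) → E → ℂ)
    (hg : ∀ (j : Fin n) (W' : Submodule QB ℂ), Module.Finite QB W' → finrank QB W' ≤ N₀ →
      (((Fintype.piFinset fun _ : Fin k => A).filter (fun p => ¬ IndepOver W' (g j p))).card : ℝ) ≤
        C * (A.card : ℝ) ^ ((k : ℝ) - δ * k)) :
    (((Fintype.piFinset fun _ : Fin n => Fintype.piFinset fun _ : Fin k => A).filter
      (fun P => ¬ IndepT W (fun j => g j (P j)))).card : ℝ) ≤
      (n * C : ℕ) * (A.card : ℝ) ^ ((n * k : ℝ) - δ * k) := by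
  obtain ⟨a, ha⟩ : ∃ a : ℝ, a = (A.card : ℝ) := ⟨_, rfl⟩
  have ha1 : 1 ≤ a := by
    rw [ha]
    exact_mod_cast hA.card_pos
  have ha0 : 0 < a := by linarith
  have hXc : ((Fintype.piFinset fun _ : Fin k => A).card : ℝ) = a ^ (k : ℝ) := by
    rw [Fintype.card_piFinset_const, ha, Real.rpow_natCast]
    push_cast
    rfl
  have h0 := union (E := E) (Fintype.piFinset fun _ : Fin k => A) (C * a ^ (-(δ * k)))
    (by positivity) N₀ n N hN W hW hWN g (fun j W' hW' hWN' => by
      refine (hg j W' hW' hWN').trans (le_of_eq ?_)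
      rw [hXc, ← ha, mul_assoc, ← Real.rpow_add ha0]
      congr 2
      ring)
  refine h0.trans (le_of_eq ?_)
  rw [hXc, ← ha, ← Real.rpow_natCast, ← Real.rpow_mul ha0.le]
  push_cast
  rw [mul_assoc (n : ℝ), mul_assoc (C : ℝ), ← Real.rpow_add ha0, mul_assoc (n : ℝ)]
  congr 3
  ring

open Classical in
/-- **Random combinations of arbitrary numbers.** -/
theorem sch (n D N : ℕ) : ∃ (k₀ C : ℕ) (δ : ℝ), 0 < δ ∧ ∀ k ≥ k₀, ∀ x : Fin n → Fin k → ℂ,
    (∀ j, LinearIndependent ℚ (x j)) → ∃ c : Fin n → Bool, ∀ A : Finset ℚ, A.Nonempty →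
    ∀ W : Submodule QB ℂ, Module.Finite QB W → finrank QB W ≤ N → ∀ ζ : Fin n → ℂ,
    (((Fintype.piFinset fun _ : Fin n => Fintype.piFinset fun _ : Fin k => A).filter
      (fun a => RelW W D (fun j => bif c j then ζ j + ∑ i, (a j i : ℂ) * x j i else
        Complex.exp (ζ j + ∑ i, (a j i : ℂ) * x j i)))).card : ℝ) ≤
      C * (A.card : ℝ) ^ ((n * k : ℝ) - δ * k) := by
  obtain ⟨k₀, C, δ, hδ, h⟩ := sch1 (N * (D + 1) ^ n) D
  refine ⟨k₀, n * C, δ, hδ, fun k hk x hx => ?_⟩
  choose c hc using fun j => h k hk (x j) (hx j)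
  refine ⟨c, fun A hA W hW hWN ζ => ?_⟩
  refine le_trans (Nat.cast_le.2 (Finset.card_le_card ?_))
    (several (E := Fin (D + 1)) (N₀ := N * (D + 1) ^ n) (by rw [Fintype.card_fin]) hA W hW hWN
      (fun j p => pw D (bif c j then ζ j + ∑ i, (p i : ℂ) * x j i else
        Complex.exp (ζ j + ∑ i, (p i : ℂ) * x j i)))
      (fun j W' hW' hWN' => hc j A hA W' hW' hWN' (ζ j)))
  intro a ha
  rw [Finset.mem_filter] at ha ⊢
  exact ⟨ha.1, fun hI => not_relW hI ha.2⟩

end Pool.Agent.Y918.GB
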