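import Mathlib
import Pool.Agent.Y918.GB.Sch

set_option autoImplicit false

/-!
# Matrices of exponentials, powers with irrational exponents and logarithms
-/

namespace Pool.Agent.Y918.GB

open Module Finset
open Pool.Agent.H301R2.SSE (QB mem_QB)
open Pool.Agent.W245 (IndepOver IndepT famExt famExt_finite)
open Pool.Agent.Y918.SC (monE Ex)
open Pool.Agent.Y918.RT (VA mem_VA card_coset pw)
open Pool.Agent.Y918.RP (LV mem_LV LV_finrank li_QB_of_logs RelW not_relW)

theorem indep_mon {A1 M1 S : Type} [Fintype A1] [Fintype M1] [Fintype S] [DecidableEq A1]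
    [DecidableEq M1] [DecidableEq S] {W : Submodule QB ℂ} {D : ℕ}
    {u : A1 → ℂ} {v : M1 → ℂ} (ε : S ≃ A1 ⊕ M1) (h : IndepOver W (monE (D := D) u v)) :
    IndepOver W (fun e : S → Fin (D + 1) => ∏ s, Sum.elim u v (ε s) ^ (e s : ℕ)) := by
  refine Pool.Agent.Y918.RT.IndepOver.congr (Equiv.arrowCongr ε (Equiv.refl _)) ?_ h
  intro e
  unfold monE
  rw [← ε.symm.prod_comp, Fintype.prod_sum_type]
  simp only [Equiv.arrowCongr_apply, Equiv.coe_refl, Function.comp_apply, id_eq,
    Equiv.apply_symm_apply, Sum.elim_inl, Sum.elim_inr]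

/-- The consequence of the six exponentials theorem. -/
theorem six_VA {M : ℕ} {y : Fin M → ℂ} (hy : LinearIndependent ℚ y) {u v : ℂ} (hu : u ≠ 0)
    (huv : ∀ q : ℚ, v ≠ q * u) :
    finrank ℚ (VA (fun j => u * y j)) + finrank ℚ (VA (fun j => v * y j)) ≤ M + 2 := by
  classical
  set V1 := VA (fun j => u * y j) with hV1
  set V2 := VA (fun j => v * y j) with hV2
  have hinf : finrank ℚ (V1 ⊓ V2 : Submodule ℚ (Fin M → ℚ)) ≤ 2 := by
    by_contra hcon
    push Not at hcon
    obtain ⟨f, hf⟩ := exists_linearIndependent_of_le_finrank (R := ℚ)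
      (M := (V1 ⊓ V2 : Submodule ℚ (Fin M → ℚ))) (n := 3) hcon
    have hf' : LinearIndependent ℚ
        (fun l => ((f l : (V1 ⊓ V2 : Submodule ℚ (Fin M → ℚ))) : Fin M → ℚ)) :=
      hf.map' (V1 ⊓ V2).subtype (Submodule.ker_subtype _)
    have hli : LinearIndependent ℚ (fun j => u * y j) :=
      hy.map' (LinearMap.mulLeft ℚ u) (LinearMap.ker_eq_bot.2 (mul_right_injective₀ hu))
    set L := Fintype.linearCombination ℚ (fun j => u * y j) with hL
    have hinj : Function.Injective L := by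
      rw [injective_iff_map_eq_zero]
      intro q hq
      rw [hL, Fintype.linearCombination_apply] at hq
      funext i
      exact Fintype.linearIndependent_iff.1 hli q hq i
    have hy' : LinearIndependent ℚ (fun l => L ((f l : (V1 ⊓ V2 : Submodule ℚ (Fin M → ℚ))) :
        Fin M → ℚ)) := hf'.map' L (LinearMap.ker_eq_bot.2 hinj)
    refine Pool.Agent.W342.GEL.six_contra (β := v / u) ?_ _ hy' ?_ ?_
    · intro q hq
      rw [div_eq_iff hu] at hq
      exact huv q hq
    · intro l
      have h1 := (mem_VA _ _).1 (f l).2.1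
      convert h1 using 2
      rw [hL, Fintype.linearCombination_apply]
      simp only [Rat.smul_def]
    · intro l
      have h1 := (mem_VA _ _).1 (f l).2.2
      convert h1 using 2
      rw [hL, Fintype.linearCombination_apply, Finset.mul_sum]
      refine Finset.sum_congr rfl fun j _ => ?_
      rw [Rat.smul_def]
      field_simp
  have h1 := Submodule.finrank_sup_add_finrank_inf_eq V1 V2
  have h2 : finrank ℚ (V1 ⊔ V2 : Submodule ℚ (Fin M → ℚ)) ≤ M := by
    have := Submodule.finrank_le (V1 ⊔ V2 : Submodule ℚ (Fin M → ℚ))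
    rwa [Module.finrank_fintype_fun_eq_card, Fintype.card_fin] at this
  omega

open Classical in
/-- **One row of a matrix of exponentials.** -/
theorem mat1 (d N D : ℕ) : ∃ (k₀ C : ℕ) (δ : ℝ), 0 < δ ∧ ∀ k ≥ k₀, ∀ (x : Fin (d + 1) → ℂ)
    (y : Fin k → ℂ), LinearIndependent ℚ x → LinearIndependent ℚ y → ∃ i : Fin (d + 1),
    ∀ A : Finset ℚ, A.Nonempty →
    ∀ W : Submodule QB ℂ, Module.Finite QB W → finrank QB W ≤ N → ∀ ξ : Fin d → ℂ,
    (((Fintype.piFinset fun _ : Fin k => A).filter (fun p => ¬ IndepOver W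
      (fun e : Fin d → Fin (D + 1) => ∏ l, Complex.exp (ξ l + x (i.succAbove l) *
        ∑ r, (p r : ℂ) * y r) ^ (e l : ℕ)))).card : ℝ) ≤
      C * (A.card : ℝ) ^ ((k : ℝ) - δ * k) := by
  obtain ⟨G, K, C, δ₀, hG, hδ, hδ1, hb⟩ := block (Fin 0) (Fin d) N D
  obtain ⟨G', hG'⟩ : ∃ G', G' = (d + 1) * G := ⟨_, rfl⟩
  have hG'0 : 0 < G' := by
    rw [hG']
    positivity
  refine ⟨G' * (8 * (K + 3)), C, δ₀ / (8 * G'), by positivity, fun k hk x y hx hy => ?_⟩
  obtain ⟨M, hM⟩ : ∃ M, M = k / G' := ⟨_, rfl⟩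
  have hGM : G' * M ≤ k := by rw [hM]; exact Nat.mul_div_le k G'
  have hM8 : 8 * (K + 3) ≤ M := by
    rw [hM, Nat.le_div_iff_mul_le hG'0, mul_comm]
    exact hk
  have hkM : k < G' * (M + 1) := by
    rw [hM]
    exact Nat.lt_mul_div_succ k hG'0
  obtain ⟨c, hc⟩ : ∃ c, c = M / 2 - (K + 1) := ⟨_, rfl⟩
  have hc1 : c + K ≤ M := by omega
  have h8 : k ≤ 8 * G' * c := by
    have h1 : M + 1 ≤ 8 * c := by omega
    calc k ≤ G' * (M + 1) := hkM.le
      _ ≤ G' * (8 * c) := Nat.mul_le_mul_left _ h1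
      _ = 8 * G' * c := by ring
  let yw : Fin G' → Fin M → ℂ := fun g j => y (win hGM (id : Fin G' → Fin G') (g, j))
  have hyw : ∀ g, LinearIndependent ℚ (yw g) := fun g =>
    hy.comp _ (fun j j' h => by
      have := win_injective hGM (τ := (id : Fin G' → Fin G')) Function.injective_id h
      exact (Prod.ext_iff.1 this).2)
  have hex : ∀ g : Fin G', ∃ i : Fin (d + 1), ∀ m : Fin d → ℤ, m ≠ 0 →
      2 * finrank ℚ (VA (fun j => (∑ l, (m l : ℂ) * x (i.succAbove l)) * yw g j)) ≤ M + 2 := by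
    intro g
    by_cases hbig : ∃ m : Fin (d + 1) → ℤ, m ≠ 0 ∧
        M + 2 < 2 * finrank ℚ (VA (fun j => (∑ l, (m l : ℂ) * x l) * yw g j))
    · obtain ⟨m₀, hm₀, hbig⟩ := hbig
      obtain ⟨i, hi⟩ := Function.ne_iff.1 hm₀
      refine ⟨i, fun m hm => ?_⟩
      have hu : (∑ l, (m l : ℂ) * x (i.succAbove l)) ≠ 0 := by
        intro h0
        apply hm
        funext l
        have h1 := hx.comp _ (Fin.succAbove_right_injective (p := i))
        have h2 := Fintype.linearIndependent_iff.1 h1 (fun l => (m l : ℚ)) (by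
          rw [← h0]
          refine Finset.sum_congr rfl fun l _ => ?_
          rw [Rat.smul_def]
          push_cast
          rfl) l
        exact_mod_cast h2
      have h3 := six_VA (hyw g) hu (v := ∑ l, (m₀ l : ℂ) * x l) (by
        intro q hq
        apply hi
        rw [Fin.sum_univ_succAbove _ i] at hq
        have h4 := Fintype.linearIndependent_iff.1 hx
          (fun r => i.insertNth (α := fun _ => ℚ) (m₀ i : ℚ)
            (fun l => (m₀ (i.succAbove l) : ℚ) - q * (m l : ℚ)) r) (by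
            rw [Fin.sum_univ_succAbove _ i]
            simp only [Fin.insertNth_apply_same, Fin.insertNth_apply_succAbove, Rat.smul_def]
            have h5 : ∑ l, (((m₀ (i.succAbove l) : ℚ) - q * (m l : ℚ) : ℚ) : ℂ) *
                x (i.succAbove l) = ∑ l, (m₀ (i.succAbove l) : ℂ) * x (i.succAbove l) -
                  q * ∑ l, (m l : ℂ) * x (i.succAbove l) := by
              rw [Finset.mul_sum, ← Finset.sum_sub_distrib]
              refine Finset.sum_congr rfl fun l _ => ?_
              push_cast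
              ring
            rw [h5, ← hq]
            push_cast
            ring) i
        rw [Fin.insertNth_apply_same] at h4
        exact_mod_cast h4)
      omega
    · push Not at hbig
      refine ⟨0, fun m hm => ?_⟩
      have h1 := hbig (Fin.cons 0 m) (by
        intro h0
        apply hm
        funext l
        have := congrFun h0 l.succ
        rwa [Fin.cons_succ] at this)
      have h2 : (∑ l, (((Fin.cons 0 m : Fin (d + 1) → ℤ) l : ℤ) : ℂ) * x l) =
          ∑ l, (m l : ℂ) * x ((0 : Fin (d + 1)).succAbove l) := by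
        rw [Fin.sum_univ_succ]
        simp only [Fin.cons_zero, Int.cast_zero, zero_mul, zero_add, Fin.cons_succ,
          Fin.succAbove_zero]
      rw [h2] at h1
      exact h1
  choose f hf using hex
  obtain ⟨i, τ, hτ, hfi⟩ := exists_windows (G := G) (n := G') (β := Fin (d + 1))
    (by rw [Fintype.card_fin]; omega) f
  refine ⟨i, fun A hA W hW hWN ξ => ?_⟩
  have ha1 : (1 : ℝ) ≤ (A.card : ℝ) := by exact_mod_cast hA.card_pos
  have h0 := hb M c hc1 (Fin k) (win hGM τ) (win_injective hGM hτ) A hA W hW hWN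
    (fun l => l.elim0) (fun _ l => l.elim0) ξ (fun r l => x (i.succAbove l) * y r)
    (by
      intro g a
      exact a.elim0)
    (by
      intro g m hm0 _
      have h3 : (fun j : Fin M => ∑ l : Fin d, (m l : ℂ) * (x (i.succAbove l) *
          y (win hGM τ (g, j)))) =
          fun j => (∑ l, (m l : ℂ) * x (i.succAbove l)) * yw (τ g) j := by
        funext j
        rw [Finset.sum_mul]
        refine Finset.sum_congr rfl fun l _ => ?_
        rw [mul_assoc]
        rfl
      rw [h3]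
      have h4 := hf (τ g) m hm0
      rw [hfi g] at h4
      omega)
  refine le_trans (Nat.cast_le.2 (Finset.card_le_card ?_)) (h0.trans ?_)
  · intro p hp
    rw [Finset.mem_filter] at hp ⊢
    refine ⟨hp.1, fun h => hp.2 ?_⟩
    have h5 := indep_mon (Equiv.emptySum (Fin 0) (Fin d)).symm h
    convert h5 using 3 with e l
    simp only [Equiv.emptySum_symm_apply, Sum.elim_inr, Finset.mul_sum]
    congr 2
    refine congrArg (fun z => ξ l + z) (Finset.sum_congr rfl fun r _ => ?_)
    ring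
  · rw [Fintype.card_fin]
    exact final_bound hδ hG'0 h8 ha1

open Classical in
/-- **Matrices of exponentials.** -/
theorem mat (d n D N : ℕ) : ∃ (k₀ C : ℕ) (δ : ℝ), 0 < δ ∧ ∀ k ≥ k₀,
    ∀ (x : Fin n → Fin (d + 1) → ℂ) (y : Fin n → Fin k → ℂ),
    (∀ j, LinearIndependent ℚ (x j)) → (∀ j, LinearIndependent ℚ (y j)) →
    ∃ i : Fin n → Fin (d + 1), ∀ A : Finset ℚ, A.Nonempty →
    ∀ W : Submodule QB ℂ, Module.Finite QB W → finrank QB W ≤ N → ∀ ξ : Fin n → Fin d → ℂ,
    (((Fintype.piFinset fun _ : Fin n => Fintype.piFinset fun _ : Fin k => A).filter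
      (fun a => RelI W D (fun p : Fin n × Fin d => Complex.exp (ξ p.1 p.2 +
        x p.1 ((i p.1).succAbove p.2) * ∑ r, (a p.1 r : ℂ) * y p.1 r)))).card : ℝ) ≤
      C * (A.card : ℝ) ^ ((n * k : ℝ) - δ * k) := by
  obtain ⟨k₀, C, δ, hδ, h⟩ := mat1 d (N * ((D + 1) ^ d) ^ n) D
  refine ⟨k₀, n * C, δ, hδ, fun k hk x y hx hy => ?_⟩
  choose i hi using fun j => h k hk (x j) (y j) (hx j) (hy j)
  refine ⟨i, fun A hA W hW hWN ξ => ?_⟩
  refine le_trans (Nat.cast_le.2 (Finset.card_le_card ?_))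
    (several (E := Fin d → Fin (D + 1)) (N₀ := N * ((D + 1) ^ d) ^ n)
      (by rw [Fintype.card_fun, Fintype.card_fin, Fintype.card_fin]) hA W hW hWN
      (fun j p e => ∏ l, Complex.exp (ξ j l + x j ((i j).succAbove l) *
        ∑ r, (p r : ℂ) * y j r) ^ (e l : ℕ))
      (fun j W' hW' hWN' => hi j A hA W' hW' hWN' (ξ j)))
  intro a ha
  rw [Finset.mem_filter] at ha ⊢
  exact ⟨ha.1, fun hI => not_relI (y := fun j l => Complex.exp (ξ j l +
    x j ((i j).succAbove l) * ∑ r, (a j r : ℂ) * y j r)) hI ha.2⟩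

open Classical in
/-- **One logarithm and its irrational multiples.** -/
theorem log1 (d N D : ℕ) : ∃ (k₀ C : ℕ) (δ : ℝ), 0 < δ ∧ ∀ k ≥ k₀, ∀ (x : Fin d → ℂ)
    (y : Fin k → ℂ), LinearIndependent ℚ (Fin.cons 1 x : Fin (d + 1) → ℂ) →
    LinearIndependent ℚ y → (∀ r, IsAlgebraic ℚ (Complex.exp (y r))) →
    ∀ A : Finset ℚ, A.Nonempty →
    ∀ W : Submodule QB ℂ, Module.Finite QB W → finrank QB W ≤ N → ∀ (ζ : ℂ) (ξ : Fin d → ℂ),
    (((Fintype.piFinset fun _ : Fin k => A).filter (fun p => ¬ IndepOver W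
      (fun e : Option (Fin d) → Fin (D + 1) => ∏ s, (s.elim (ζ + ∑ r, (p r : ℂ) * y r)
        (fun l => Complex.exp (ξ l + x l * ∑ r, (p r : ℂ) * y r))) ^ (e s : ℕ)))).card : ℝ) ≤
      C * (A.card : ℝ) ^ ((k : ℝ) - δ * k) := by
  obtain ⟨G, K, C, δ₀, hG, hδ, hδ1, hb⟩ := block Unit (Fin d) N D
  refine ⟨G * (8 * (K + 3)), C, δ₀ / (8 * G), by positivity,
    fun k hk x y hx hy halg A hA W hW hWN ζ ξ => ?_⟩
  obtain ⟨M, hM⟩ : ∃ M, M = k / G := ⟨_, rfl⟩
  have hGM : G * M ≤ k := by rw [hM]; exact Nat.mul_div_le k G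
  have hM8 : 8 * (K + 3) ≤ M := by
    rw [hM, Nat.le_div_iff_mul_le hG, mul_comm]
    exact hk
  have hkM : k < G * (M + 1) := by
    rw [hM]
    exact Nat.lt_mul_div_succ k hG
  obtain ⟨c, hc⟩ : ∃ c, c = M - (K + 2) := ⟨_, rfl⟩
  have hc1 : c + K ≤ M := by omega
  have h8 : k ≤ 8 * G * c := by
    have h1 : M + 1 ≤ 8 * c := by omega
    calc k ≤ G * (M + 1) := hkM.le
      _ ≤ G * (8 * c) := Nat.mul_le_mul_left _ h1
      _ = 8 * G * c := by ring
  let yw : Fin G → Fin M → ℂ := fun g j => y (win hGM (id : Fin G → Fin G) (g, j))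
  have hyw : ∀ g, LinearIndependent ℚ (yw g) := fun g =>
    hy.comp _ (fun j j' h => by
      have := win_injective hGM (τ := (id : Fin G → Fin G)) Function.injective_id h
      exact (Prod.ext_iff.1 this).2)
  have ha1 : (1 : ℝ) ≤ (A.card : ℝ) := by exact_mod_cast hA.card_pos
  have h0 := hb M c hc1 (Fin k) (win hGM (id : Fin G → Fin G))
    (win_injective hGM Function.injective_id) A hA W hW hWN
    (fun _ => ζ) (fun r _ => y r) ξ (fun r l => x l * y r)
    (by
      intro g _ V hV hVK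
      have h1 : finrank ℚ (LV (yw g) V) ≤ finrank QB V :=
        LV_finrank (li_QB_of_logs (fun j => halg _) (hyw g)) V
      have h3 : (fun j : Fin M => y (win hGM (id : Fin G → Fin G) (g, j))) = yw g := rfl
      rw [h3]
      omega)
    (by
      intro g m hm0 _
      have h3 : (fun j : Fin M => ∑ l : Fin d, (m l : ℂ) * (x l *
          y (win hGM (id : Fin G → Fin G) (g, j)))) =
          fun j => (∑ l, (m l : ℂ) * x l) * yw g j := by
        funext j
        rw [Finset.sum_mul]
        refine Finset.sum_congr rfl fun l _ => ?_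
        rw [mul_assoc]
      rw [h3]
      have h4 := six_VA (hyw g) one_ne_zero (v := ∑ l, (m l : ℂ) * x l) (by
        intro q hq
        apply hm0
        funext l
        have h5 := Fintype.linearIndependent_iff.1 hx
          (Fin.cons (-q) (fun l => (m l : ℚ)) : Fin (d + 1) → ℚ) (by
            rw [Fin.sum_univ_succ]
            simp only [Fin.cons_zero, Fin.cons_succ, Rat.smul_def]
            push_cast
            rw [hq]
            ring) l.succ
        rw [Fin.cons_succ] at h5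
        exact_mod_cast h5)
      have h6 : VA (fun j => 1 * yw g j) = ⊤ := by
        rw [Submodule.eq_top_iff']
        intro q
        rw [mem_VA]
        have h7 : ∀ r, y r ∈ Pool.Agent.H327R2.SC.Lam := fun r =>
          Pool.Agent.H327R2.SC.mem_Lam.2 (halg r)
        rw [← Pool.Agent.H327R2.SC.mem_Lam]
        refine Submodule.sum_mem _ fun j _ => ?_
        rw [one_mul, ← Rat.smul_def]
        exact Submodule.smul_mem _ _ (h7 _)
      rw [h6, finrank_top, Module.finrank_fintype_fun_eq_card, Fintype.card_fin] at h4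
      omega)
  refine le_trans (Nat.cast_le.2 (Finset.card_le_card ?_)) (h0.trans ?_)
  · intro p hp
    rw [Finset.mem_filter] at hp ⊢
    refine ⟨hp.1, fun h => hp.2 ?_⟩
    have h5 := indep_mon ((Equiv.optionEquivSumPUnit (Fin d)).trans (Equiv.sumComm _ _)) h
    convert h5 using 3 with e s
    rcases s with _ | l
    · rfl
    · simp only [Option.elim_some, Equiv.trans_apply, Equiv.optionEquivSumPUnit_some,
        Equiv.sumComm_apply, Sum.swap_inl, Sum.elim_inr, Finset.mul_sum]
      congr 2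
      refine congrArg (fun z => ξ l + z) (Finset.sum_congr rfl fun r _ => ?_)
      ring
  · rw [Fintype.card_fin]
    exact final_bound hδ hG h8 ha1

open Classical in
/-- **Several logarithms and their irrational multiples.** -/
theorem logs (d n D N : ℕ) : ∃ (k₀ C : ℕ) (δ : ℝ), 0 < δ ∧ ∀ k ≥ k₀,
    ∀ (x : Fin n → Fin d → ℂ) (y : Fin n → Fin k → ℂ),
    (∀ j, LinearIndependent ℚ (Fin.cons 1 (x j) : Fin (d + 1) → ℂ)) →
    (∀ j, LinearIndependent ℚ (y j)) → (∀ j r, IsAlgebraic ℚ (Complex.exp (y j r))) →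
    ∀ A : Finset ℚ, A.Nonempty →
    ∀ W : Submodule QB ℂ, Module.Finite QB W → finrank QB W ≤ N →
    ∀ (ζ : Fin n → ℂ) (ξ : Fin n → Fin d → ℂ),
    (((Fintype.piFinset fun _ : Fin n => Fintype.piFinset fun _ : Fin k => A).filter
      (fun a => RelI W D (fun p : Fin n × Option (Fin d) =>
        p.2.elim (ζ p.1 + ∑ r, (a p.1 r : ℂ) * y p.1 r)
        (fun l => Complex.exp (ξ p.1 l + x p.1 l * ∑ r, (a p.1 r : ℂ) * y p.1 r))))).card : ℝ) ≤
      C * (A.card : ℝ) ^ ((n * k : ℝ) - δ * k) := by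
  obtain ⟨k₀, C, δ, hδ, h⟩ := log1 d (N * ((D + 1) ^ (d + 1)) ^ n) D
  refine ⟨k₀, n * C, δ, hδ, fun k hk x y hx hy halg A hA W hW hWN ζ ξ => ?_⟩
  refine le_trans (Nat.cast_le.2 (Finset.card_le_card ?_))
    (several (E := Option (Fin d) → Fin (D + 1)) (N₀ := N * ((D + 1) ^ (d + 1)) ^ n)
      (by rw [Fintype.card_fun, Fintype.card_option, Fintype.card_fin, Fintype.card_fin])
      hA W hW hWN
      (fun j p e => ∏ s, (s.elim (ζ j + ∑ r, (p r : ℂ) * y j r)
        (fun l => Complex.exp (ξ j l + x j l * ∑ r, (p r : ℂ) * y j r))) ^ (e s : ℕ))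
      (fun j W' hW' hWN' => h k hk (x j) (y j) (hx j) (hy j) (halg j) A hA W' hW' hWN' (ζ j) (ξ j)))
  intro a ha
  rw [Finset.mem_filter] at ha ⊢
  exact ⟨ha.1, fun hI => not_relI (y := fun j (s : Option (Fin d)) =>
    s.elim (ζ j + ∑ r, (a j r : ℂ) * y j r)
        (fun l => Complex.exp (ξ j l + x j l * ∑ r, (a j r : ℂ) * y j r))) hI ha.2⟩

end Pool.Agent.Y918.GB
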