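import Mathlib
import Pool.Agent.W245.PB.RealQ
import Pool.Agent.W245.PB.SubF
import Pool.Agent.Y918.RP.Gel
import Pool.Agent.Y918.GB.Sch

set_option autoImplicit false

/-!
# Four exponentials: adjoining random elements of groups of logarithms
-/

namespace Pool.Agent.Y918.GB

open Module Finset
open Pool.Agent.H301R2.SSE (QB mem_QB)
open Pool.Agent.W245 (IndepOver IndepT NoRelOver)
open Pool.Agent.W245.PB (RelFour coefSp hull coefHull_finite not_mem_of_coefHull
  finrank_sup_span_singleton')
open Pool.Agent.Y918.RT (pw)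
open Pool.Agent.Y918.RP (stepF fine_li li_QB_of_logs)

theorem range_succ {K C : Type*} [Field K] [AddCommGroup C] [Module K C] (V : Submodule K C) {n : ℕ}
    (l : Fin (n + 1) → C) : V ⊔ Submodule.span K (Set.range l) =
      V ⊔ Submodule.span K {l 0} ⊔ Submodule.span K (Set.range fun j : Fin n => l j.succ) := by
  rw [sup_assoc, ← Submodule.span_union]
  congr 2
  ext z
  constructor
  · rintro ⟨i, rfl⟩
    refine Fin.cases ?_ (fun j => ?_) i
    · exact Or.inl rfl
    · exact Or.inr ⟨j, rfl⟩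
  · rintro (h | ⟨j, rfl⟩)
    · rw [Set.mem_singleton_iff] at h
      exact ⟨0, h.symm⟩
    · exact ⟨j.succ, rfl⟩

open Classical in
theorem four_count {K : Type} [Field K] [Algebra K ℂ] [Algebra K QB] [IsScalarTower K QB ℂ]
    {X : Type} (Xs : Finset X) (β : ℝ) (hβ : 0 ≤ β) (m₀ : ℕ) (V : Submodule K ℂ) :
    ∀ (n : ℕ) (l : Fin n → X → ℂ),
    (∀ (j : Fin n) (W : Submodule QB ℂ), Module.Finite QB W → finrank QB W ≤ (m₀ + 1) ^ 2 →
      ((Xs.filter (fun x => ¬ NoRelOver W 2 (l j x))).card : ℝ) ≤ β * Xs.card) →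
    ∀ (V' : Submodule K ℂ), Module.Finite K V' → finrank K V' + n ≤ m₀ → RelFour V V' →
    (((Fintype.piFinset fun _ : Fin n => Xs).filter (fun P =>
      ¬ (RelFour V (V' ⊔ Submodule.span K (Set.range fun j => l j (P j))) ∧
        finrank K (V' ⊔ Submodule.span K (Set.range fun j => l j (P j)) : Submodule K ℂ) =
          finrank K V' + n))).card : ℝ) ≤ n * β * (Xs.card : ℝ) ^ n := by
  intro n
  induction n with
  | zero =>
    intro l _ V' _ _ hV'
    rw [Finset.filter_false_of_mem]
    · simp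
    · intro P _ hT
      apply hT
      have : Submodule.span K (Set.range fun j : Fin 0 => l j (P j)) = ⊥ := by
        rw [Set.range_eq_empty, Submodule.span_empty]
      rw [this, sup_bot_eq]
      exact ⟨hV', rfl⟩
  | succ n ih =>
    intro l hl V' hV'f hm hV'
    obtain ⟨a, ha⟩ : ∃ a : ℝ, a = (Xs.card : ℝ) := ⟨_, rfl⟩
    have ha0 : 0 ≤ a := by
      rw [ha]
      exact Nat.cast_nonneg _
    rw [← ha]
    set Yn : Finset (Fin n → X) := Fintype.piFinset fun _ => Xs with hYn
    have hYc : (Yn.card : ℝ) = a ^ n := by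
      rw [hYn, Fintype.card_piFinset_const, ha]
      push_cast
      rfl
    obtain ⟨h2, h3⟩ := coefHull_finite (κ := QB) V' m₀ (by omega)
    set H : Finset X := Xs.filter (fun x => ¬ NoRelOver (coefSp (hull QB V')) 2 (l 0 x)) with hH
    have hHc : (H.card : ℝ) ≤ β * a := by
      rw [ha]
      exact hl 0 _ h2 h3
    set B := ((Fintype.piFinset fun _ : Fin (n + 1) => Xs).filter (fun P =>
      ¬ (RelFour V (V' ⊔ Submodule.span K (Set.range fun j => l j (P j))) ∧
        finrank K (V' ⊔ Submodule.span K (Set.range fun j => l j (P j)) : Submodule K ℂ) =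
          finrank K V' + (n + 1)))) with hB
    have hfib : B.card = ∑ p ∈ Xs, (B.filter (fun P => P 0 = p)).card := by
      apply Finset.card_eq_sum_card_fiberwise
      intro P hP
      exact Fintype.mem_piFinset.1 (Finset.mem_filter.1 hP).1 0
    have hinj : ∀ p, Set.InjOn (fun P : Fin (n + 1) → X => Fin.tail P)
        (B.filter (fun P => P 0 = p)) := by
      intro p P hP P' hP' hPP
      rw [Finset.mem_coe, Finset.mem_filter] at hP hP'
      rw [← Fin.cons_self_tail P, ← Fin.cons_self_tail P', hP.2, hP'.2]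
      exact congrArg _ hPP
    have hall : ∀ p ∈ Xs, ((B.filter (fun P => P 0 = p)).card : ℝ) ≤ a ^ n := by
      intro p _
      rw [← hYc]
      apply Nat.cast_le.2
      refine Finset.card_le_card_of_injOn (fun P => Fin.tail P) ?_ (hinj p)
      intro P hP
      rw [Finset.mem_coe, Finset.mem_filter, hB, Finset.mem_filter] at hP
      have h3 := Fintype.mem_piFinset.1 hP.1.1
      exact Fintype.mem_piFinset.2 (fun j => h3 j.succ)
    have hgood : ∀ p ∈ Xs, p ∉ H → ((B.filter (fun P => P 0 = p)).card : ℝ) ≤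
        n * β * a ^ n := by
      intro p hp hpH
      have hp2 : NoRelOver (coefSp (hull QB V')) 2 (l 0 p) := by
        by_contra h
        exact hpH (Finset.mem_filter.2 ⟨hp, h⟩)
      have hrk := finrank_sup_span_singleton' (K := K) (not_mem_of_coefHull (κ := QB) hp2)
      have h4 := ih (fun j => l j.succ) (fun j W hW hWN => hl j.succ W hW hWN)
        (V' ⊔ Submodule.span K {l 0 p}) inferInstance (by rw [hrk]; omega) (hV'.extend _ hp2)
      rw [← ha] at h4
      refine le_trans (Nat.cast_le.2 ?_) h4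
      refine Finset.card_le_card_of_injOn (fun P => Fin.tail P) ?_ (hinj p)
      intro P hP
      rw [Finset.mem_coe, Finset.mem_filter, hB, Finset.mem_filter] at hP
      obtain ⟨⟨hPA, hTi⟩, hP0⟩ := hP
      have h6 := Fintype.mem_piFinset.1 hPA
      rw [Finset.mem_coe, Finset.mem_filter]
      refine ⟨Fintype.mem_piFinset.2 (fun j => h6 j.succ), ?_⟩
      intro h7
      apply hTi
      rw [range_succ, hP0]
      refine ⟨h7.1, ?_⟩
      have h8 := h7.2
      rw [hrk] at h8
      have h9 : (fun j : Fin n => l j.succ (Fin.tail P j)) = fun j : Fin n => l j.succ (P j.succ) :=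
        rfl
      rw [h9] at h8
      rw [h8]
      ring
    rw [hfib]
    push_cast
    rw [← Finset.sum_filter_add_sum_filter_not Xs (fun p => p ∈ H)]
    have h1 : ∑ p ∈ Xs.filter (fun p => p ∈ H), ((B.filter (fun P => P 0 = p)).card : ℝ) ≤
        β * a * a ^ n := by
      refine (Finset.sum_le_sum (fun p hp => hall p (Finset.mem_filter.1 hp).1)).trans ?_
      rw [Finset.sum_const, nsmul_eq_mul]
      have h3 : ((Xs.filter (fun p => p ∈ H)).card : ℝ) ≤ (H.card : ℝ) := by
        have h4 : (Xs.filter (fun p => p ∈ H)).card ≤ H.card := by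
          refine Finset.card_le_card ?_
          intro p hp
          exact (Finset.mem_filter.1 hp).2
        exact_mod_cast h4
      exact mul_le_mul_of_nonneg_right (h3.trans hHc) (pow_nonneg ha0 _)
    have h2 : ∑ p ∈ Xs.filter (fun p => ¬ p ∈ H), ((B.filter (fun P => P 0 = p)).card : ℝ) ≤
        a * (n * β * a ^ n) := by
      refine (Finset.sum_le_sum (fun p hp => hgood p (Finset.mem_filter.1 hp).1
        (Finset.mem_filter.1 hp).2)).trans ?_
      rw [Finset.sum_const, nsmul_eq_mul]
      have h3 : ((Xs.filter (fun p => ¬ p ∈ H)).card : ℝ) ≤ a := by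
        rw [ha]
        exact_mod_cast Finset.card_le_card (Finset.filter_subset _ _)
      exact mul_le_mul_of_nonneg_right h3 (by positivity)
    calc _ ≤ β * a * a ^ n + a * (n * β * a ^ n) := add_le_add h1 h2
      _ = (n + 1) * β * a ^ (n + 1) := by ring

open Classical in
/-- **Four exponentials for random extensions.** -/
theorem four (n m : ℕ) : ∃ (k₀ C : ℕ) (δ : ℝ), 0 < δ ∧ ∀ k ≥ k₀, ∀ y : Fin n → Fin k → ℂ,
    (∀ j, LinearIndependent ℚ (y j)) → (∀ j r, IsAlgebraic ℚ (Complex.exp (y j r))) →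
    ∀ A : Finset ℚ, A.Nonempty → ∀ (K : Type) [Field K] [Algebra K ℂ] [Algebra K QB]
    [IsScalarTower K QB ℂ] (V : Submodule K ℂ), Module.Finite K V → finrank K V ≤ m →
    ∀ ζ : Fin n → ℂ,
    (((Fintype.piFinset fun _ : Fin n => Fintype.piFinset fun _ : Fin k => A).filter (fun a =>
      ¬ (RelFour V (V ⊔ Submodule.span K (Set.range fun j => ζ j + ∑ r, (a j r : ℂ) * y j r)) ∧
        finrank K (V ⊔ Submodule.span K (Set.range fun j => ζ j + ∑ r, (a j r : ℂ) * y j r) :
          Submodule K ℂ) = finrank K V + n))).card : ℝ) ≤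
      C * (A.card : ℝ) ^ ((n * k : ℝ) - δ * k) := by
  obtain ⟨k₀, C, δ, hδ, _, h⟩ := stepF ((m + n + 1) ^ 2) 2
  refine ⟨k₀, n * C, δ, hδ, fun k hk y hy halg A hA K _ _ _ _ V hV hVm ζ => ?_⟩
  obtain ⟨a, ha⟩ : ∃ a : ℝ, a = (A.card : ℝ) := ⟨_, rfl⟩
  have ha1 : 1 ≤ a := by
    rw [ha]
    exact_mod_cast hA.card_pos
  have ha0 : 0 < a := by linarith
  have hXc : ((Fintype.piFinset fun _ : Fin k => A).card : ℝ) = a ^ (k : ℝ) := by
    rw [Fintype.card_piFinset_const, ha, Real.rpow_natCast]
    push_cast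
    rfl
  have h0 := four_count (Fintype.piFinset fun _ : Fin k => A) (C * a ^ (-(δ * k)))
    (by positivity) (m + n) V n (fun j p => ζ j + ∑ r, (p r : ℂ) * y j r)
    (fun j W hW hWN => by
      have h1 := h k hk A hA W hW hWN _ (fine_li (li_QB_of_logs (halg j) (hy j)) (ζ j))
      have h2 : C * a ^ (-(δ * k)) * ((Fintype.piFinset fun _ : Fin k => A).card : ℝ) =
          C * (A.card : ℝ) ^ ((k : ℝ) - δ * k) := by
        rw [hXc, ← ha, mul_assoc, ← Real.rpow_add ha0]
        congr 2
        ring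
      rw [h2]
      refine le_trans (Nat.cast_le.2 (Finset.card_le_card ?_)) h1
      intro p hp
      rw [Finset.mem_filter] at hp ⊢
      exact ⟨hp.1, Or.inr hp.2⟩) V hV (by omega) (RelFour.refl V)
  refine h0.trans (le_of_eq ?_)
  rw [hXc, ← ha, ← Real.rpow_natCast, ← Real.rpow_mul ha0.le]
  push_cast
  rw [mul_assoc (n : ℝ), mul_assoc (C : ℝ), ← Real.rpow_add ha0, mul_assoc (n : ℝ)]
  congr 3
  ring

end Pool.Agent.Y918.GB
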